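import Pool.Agent.Lib.MP_562b47_mp.WO.Trade
import Pool.Agent.Lib.MP_562b47_mp.AL.Int

/-!
MP_562b47, worlds: lowering the background.
-/

open MeasureTheory Matrix Finset

set_option linter.unusedSectionVars false

namespace Pool.Agent.Lib.MP_562b47_mp.WO

open Pool.Agent.Lib.MP_562b47_mp.AL Pool.Agent.Lib.MP_562b47_mp

variable {ι 𝔅 : Type*} [Fintype ι] [DecidableEq ι] [Fintype 𝔅] [DecidableEq 𝔅]

namespace Sys

variable (S : Sys ι 𝔅) {A : Matrix ι ι ℝ} {p : 𝔅 → ℝ} {V : ι → ℝ} {Ac : Finset 𝔅} {b : 𝔅}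

/-- the mask of the sites which are lowered: `0` in the inner blocks (without centre) of the complete
blocks of class `> m` and at the centres of the active blocks of class `> m`, `1` elsewhere -/
noncomputable def msk (m : ℕ) (Ac : Finset 𝔅) (V : ι → ℝ) (x : ι) : ℝ :=
  1 - (∑ b ∈ (S.Comp V).filter (fun b => m < S.cls b), if x ∈ S.inn b then 1 else 0) -
    ∑ b ∈ Ac, if x = S.w b ∧ m < S.cls b then 1 else 0

/-- the potential without the background `a` -/
noncomputable def c0 (A : Matrix ι ι ℝ) (m : ℕ) (Ac : Finset 𝔅) (V : ι → ℝ) (x : ι) : ℂ :=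
  (V x : ℂ) - ((∑ b ∈ (S.Comp V).filter (fun b => m < S.cls b),
      if x ∈ S.inn b then S.et (S.cls b) else 0 : ℝ) : ℂ) * Complex.I +
    ∑ b ∈ Ac, (if x = S.w b then ((S.ze A b V - V x : ℝ) : ℂ) -
      ((S.gg A b V + if m < S.cls b then S.et (S.cls b) else 0 : ℝ) : ℂ) * Complex.I else 0)

theorem uA_eq_bg (A : Matrix ι ι ℝ) (m : ℕ) (a : ℝ) (Ac : Finset 𝔅) (V : ι → ℝ) :
    S.uA A m a Ac V = bg (S.c0 A m Ac V) (S.msk m Ac V) a := by
  funext x
  unfold bg uA c0 msk bk
  have e1 : (∑ b ∈ (S.Comp V).filter (fun b => m < S.cls b),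
      if x ∈ S.inn b then S.et (S.cls b) - a else 0) =
      (∑ b ∈ (S.Comp V).filter (fun b => m < S.cls b),
      if x ∈ S.inn b then S.et (S.cls b) else 0) -
      a * ∑ b ∈ (S.Comp V).filter (fun b => m < S.cls b), if x ∈ S.inn b then (1 : ℝ) else 0 := by
    rw [Finset.mul_sum, ← Finset.sum_sub_distrib]
    refine Finset.sum_congr rfl fun b _ => ?_
    split_ifs <;> ring
  have e2 : (∑ b ∈ Ac, (if x = S.w b then ((S.ze A b V - V x : ℝ) : ℂ) -
      ((S.gg A b V + if m < S.cls b then S.et (S.cls b) - a else 0 : ℝ) : ℂ) * Complex.I else 0)) =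
      (∑ b ∈ Ac, (if x = S.w b then ((S.ze A b V - V x : ℝ) : ℂ) -
      ((S.gg A b V + if m < S.cls b then S.et (S.cls b) else 0 : ℝ) : ℂ) * Complex.I else 0)) +
      ((a * ∑ b ∈ Ac, (if x = S.w b ∧ m < S.cls b then (1 : ℝ) else 0) : ℝ) : ℂ) * Complex.I := by
    rw [Finset.mul_sum, Complex.ofReal_sum, Finset.sum_mul, ← Finset.sum_add_distrib]
    refine Finset.sum_congr rfl fun b _ => ?_
    by_cases h1 : x = S.w b
    · by_cases h2 : m < S.cls b
      · simp only [h1, h2, if_true, and_self]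
        push_cast
        ring
      · simp only [h1, h2, if_true, if_false, and_false]
        push_cast
        ring
    · simp only [h1, if_false, false_and]
      simp
  rw [e1, e2]
  push_cast
  ring

/-- values of the mask -/
theorem msk_cases (hS : Good S A) (m : ℕ) (hA : Ac ⊆ S.Comp V) (x : ι) :
    (S.msk m Ac V x = 0 ∧ (S.c0 A m Ac V x).im < 0) ∨
      (S.msk m Ac V x = 1 ∧ (S.c0 A m Ac V x).im ≤ 0) := by
  have hL1 := S.uA_loss (m := m) hS one_pos hA x
  -- the two sums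
  by_cases h1 : ∃ b ∈ S.Comp V, m < S.cls b ∧ x ∈ S.inn b
  · obtain ⟨b, hb, hm, hx⟩ := h1
    have e1 : (∑ b' ∈ (S.Comp V).filter (fun b => m < S.cls b),
        if x ∈ S.inn b' then (1 : ℝ) else 0) = 1 := by
      rw [Finset.sum_eq_single b]
      · rw [if_pos hx]
      · intro b' hb' hne
        rw [if_neg]
        intro h
        exact S.not_mem_of_ne (mem_filter.mp hb').1 hb (Ne.symm hne) (S.inn_sub hx) (S.inn_sub h)
      · intro h; exact absurd (mem_filter.mpr ⟨hb, hm⟩) h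
    have e2 : (∑ b' ∈ Ac, if x = S.w b' ∧ m < S.cls b' then (1 : ℝ) else 0) = 0 := by
      refine Finset.sum_eq_zero fun b' hb' => ?_
      rw [if_neg]
      rintro ⟨h, _⟩
      by_cases hbb : b' = b
      · rw [hbb] at h
        exact ((S.mem_inn).mp hx).1 h
      · exact S.not_mem_of_ne hb (hA hb') hbb (S.w_mem b') (by rw [← h]; exact S.inn_sub hx)
    have hmk : S.msk m Ac V x = 0 := by
      unfold msk
      rw [e1, e2]; ring
    refine Or.inl ⟨hmk, ?_⟩
    rw [S.uA_eq_bg, bg, hmk] at hL1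
    simpa using hL1
  · push Not at h1
    have e1 : (∑ b' ∈ (S.Comp V).filter (fun b => m < S.cls b),
        if x ∈ S.inn b' then (1 : ℝ) else 0) = 0 := by
      refine Finset.sum_eq_zero fun b' hb' => ?_
      rw [if_neg (h1 b' (mem_filter.mp hb').1 (mem_filter.mp hb').2)]
    by_cases h2 : ∃ b ∈ Ac, x = S.w b ∧ m < S.cls b
    · obtain ⟨b, hb, hx, hm⟩ := h2
      have e2 : (∑ b' ∈ Ac, if x = S.w b' ∧ m < S.cls b' then (1 : ℝ) else 0) = 1 := by
        rw [Finset.sum_eq_single b]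
        · rw [if_pos ⟨hx, hm⟩]
        · intro b' hb' hne
          rw [if_neg]
          rintro ⟨h, _⟩
          exact S.ne_w hA hb hb' hne (by rw [hx]; exact S.w_mem b) h
        · intro h; exact absurd hb h
      have hmk : S.msk m Ac V x = 0 := by
        unfold msk
        rw [e1, e2]; ring
      refine Or.inl ⟨hmk, ?_⟩
      rw [S.uA_eq_bg, bg, hmk] at hL1
      simpa using hL1
    · push Not at h2
      have e2 : (∑ b' ∈ Ac, if x = S.w b' ∧ m < S.cls b' then (1 : ℝ) else 0) = 0 := by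
        refine Finset.sum_eq_zero fun b' hb' => ?_
        rw [if_neg]
        rintro ⟨h, h'⟩
        exact absurd h' (not_lt.mpr (h2 b' hb' h))
      have hmk : S.msk m Ac V x = 1 := by
        unfold msk
        rw [e1, e2]; ring
      refine Or.inr ⟨hmk, ?_⟩
      -- for every `a > 0` the imaginary part is negative
      by_contra hc
      push Not at hc
      have h3 := S.uA_loss (m := m) (a := (S.c0 A m Ac V x).im) hS hc hA x
      rw [S.uA_eq_bg, bg, hmk] at h3
      simp at h3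

theorem measurableSet_sub (Ac : Finset 𝔅) : MeasurableSet {V : ι → ℝ | Ac ⊆ S.Comp V} := by
  have : {V : ι → ℝ | Ac ⊆ S.Comp V} = ⋂ b : 𝔅, {V : ι → ℝ | b ∈ Ac → S.comp b V} := by
    ext V
    simp only [Set.mem_ofPred_eq, Set.mem_iInter]
    constructor
    · intro h b hb
      exact (S.mem_Comp).mp (h hb)
    · intro h b hb
      exact (S.mem_Comp).mpr (h b hb)
  rw [this]
  apply MeasurableSet.iInter
  intro b
  by_cases hb : b ∈ Ac
  · simp only [hb, true_implies]
    exact S.measurableSet_comp b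
  · simp [hb]

theorem measurable_msk (m : ℕ) (Ac : Finset 𝔅) (x : ι) :
    Measurable fun V : ι → ℝ => S.msk m Ac V x := by
  unfold msk
  exact S.measurable_of_Comp (F := fun B _ => 1 - (∑ b ∈ B.filter (fun b => m < S.cls b),
    if x ∈ S.inn b then (1 : ℝ) else 0) - ∑ b ∈ Ac, if x = S.w b ∧ m < S.cls b then (1 : ℝ) else 0)
    fun B => measurable_const

theorem measurable_c0 (A : Matrix ι ι ℝ) (m : ℕ) (Ac : Finset 𝔅) (x : ι) :
    Measurable fun V : ι → ℝ => S.c0 A m Ac V x := by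
  unfold c0
  apply Measurable.add
  · refine (Complex.measurable_ofReal.comp (measurable_pi_apply x)).sub
      ((Complex.measurable_ofReal.comp ?_).mul_const _)
    exact S.measurable_of_Comp (F := fun B _ => ∑ b ∈ B.filter (fun b => m < S.cls b),
      if x ∈ S.inn b then S.et (S.cls b) else 0) fun B => measurable_const
  · refine Finset.measurable_fun_sum _ fun b _ => ?_
    by_cases h : x = S.w b
    · simp only [if_pos h]
      exact (Complex.measurable_ofReal.comp
        ((S.measurable_ze A b).sub (measurable_pi_apply x))).sub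
        ((Complex.measurable_ofReal.comp ((S.measurable_gg A b).add_const _)).mul_const _)
    · simp only [if_neg h]; exact measurable_const

variable {κ' : Type*} [Fintype κ']

/-- the derivative of the functional in the background -/
noncomputable def dDw (A : Matrix ι ι ℝ) (ξ : κ' → ι → ℝ) (m : ℕ) (a : ℝ) (Ac : Finset 𝔅)
    (V : ι → ℝ) : ℝ :=
  ∑ x, S.msk m Ac V x * dD A ξ (S.uA A m a Ac V) x (S.uA A m a Ac V x)

theorem msk_nonneg (hS : Good S A) (m : ℕ) (hA : Ac ⊆ S.Comp V) (x : ι) :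
    0 ≤ S.msk m Ac V x := by
  rcases S.msk_cases hS m hA x with h | h
  · rw [h.1]
  · rw [h.1]; exact zero_le_one

theorem msk_mul_le (hS : Good S A) (m : ℕ) {a : ℝ} (ha : 0 < a) (hA : Ac ⊆ S.Comp V) (x : ι) :
    a * S.msk m Ac V x ≤ gam (S.uA A m a Ac V) x := by
  rw [S.uA_eq_bg, gam_bg]
  rcases S.msk_cases hS m hA x with h | h
  · linarith [h.2]
  · linarith [h.2]

theorem measurable_dDw (A : Matrix ι ι ℝ) (ξ : κ' → ι → ℝ) (m : ℕ) (a : ℝ) (Ac : Finset 𝔅) :
    Measurable (S.dDw A ξ m a Ac) := by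
  unfold dDw
  exact Finset.measurable_fun_sum _ fun x _ => (S.measurable_msk m Ac x).mul
    (measurable_dD A ξ (fun y => S.measurable_uA A m a Ac y) x (S.measurable_uA A m a Ac x))

theorem bdd_dDw (hS : Good S A) (ξ : κ' → ι → ℝ) (m : ℕ) {a : ℝ} (ha : 0 < a) :
    Bdd S (S.dDw A ξ m a) := by
  refine ⟨fun Ac => S.measurable_dDw A ξ m a Ac, 10 / a * ∑ x, ∑ y, ff ξ x y, fun V Ac hA => ?_⟩
  have hL := S.uA_loss (m := m) hS ha hA
  refine (abs_sum_dD_le hS.symm ξ hL (S.msk m Ac V) ha (fun x => S.msk_nonneg hS m hA x)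
    (fun x => S.msk_mul_le hS m ha hA x)).trans ?_
  exact mul_le_mul_of_nonneg_left (DU_le hS.symm hL ξ) (by positivity)

/-- the functional and its derivative in the background -/
theorem hasDerivAt_Dw (hS : Good S A) (ξ : κ' → ι → ℝ) (m : ℕ) {t : ℝ} (h0 : 0 ≤ t) (h1 : t ≤ 1)
    {a : ℝ} (ha : 0 < a) :
    HasDerivAt (fun a => S.Dw A ξ m t a) (S.Ex A (S.pim m t) (S.dDw A ξ m a)) a := by
  classical
  have hp := S.adm_pim m h0 h1
  have hev : (fun a => S.Dw A ξ m t a) =ᶠ[nhds a] fun a =>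
      ∑ Ac, ∫ V, S.E1 A (S.pim m t) (fun Ac V => DU A ξ (S.uA A m a Ac V)) Ac V ∂(S.mu) := by
    filter_upwards [Ioi_mem_nhds ha] with a' ha'
    exact S.Ex_eq_sum hS hp (S.bdd_DU hS ξ m ha')
  rw [S.Ex_eq_sum hS hp (S.bdd_dDw hS ξ m ha)]
  refine HasDerivAt.congr_of_eventuallyEq ?_ hev
  refine HasDerivAt.fun_sum fun Ac _ => ?_
  -- one set `Ac`
  set W : (ι → ℝ) → ℝ := fun V => if Ac ⊆ S.Comp V then S.wt A (S.pim m t) V Ac else 0 with hW
  set c : (ι → ℝ) → ι → ℂ := fun V x => if Ac ⊆ S.Comp V then S.c0 A m Ac V x else -Complex.I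
    with hc
  set mm : (ι → ℝ) → ι → ℝ := fun V x => if Ac ⊆ S.Comp V then S.msk m Ac V x else 0 with hmm
  have hset := S.measurableSet_sub Ac
  have key := hasDerivAt_integral_DU hS.symm ξ S.mu c mm W 1 ?_ ?_ ?_ ?_ ?_ ?_ ?_ ha
  · have e1 : ∀ a', (∫ V, S.E1 A (S.pim m t) (fun Ac V => DU A ξ (S.uA A m a' Ac V)) Ac V
        ∂(S.mu)) = ∫ V, W V * DU A ξ (bg (c V) (mm V) a') ∂(S.mu) := by
      intro a'
      refine integral_congr_ae (Filter.Eventually.of_forall fun V => ?_)
      simp only [E1, hW]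
      by_cases h : Ac ⊆ S.Comp V
      · rw [if_pos h, if_pos h]
        congr 2
        rw [S.uA_eq_bg]
        simp only [hc, hmm, if_pos h]
      · rw [if_neg h, if_neg h, zero_mul]
    have e2 : (∫ V, S.E1 A (S.pim m t) (S.dDw A ξ m a) Ac V ∂(S.mu)) =
        ∫ V, W V * ∑ x, mm V x * dD A ξ (bg (c V) (mm V) a) x (bg (c V) (mm V) a x)
          ∂(S.mu) := by
      refine integral_congr_ae (Filter.Eventually.of_forall fun V => ?_)
      simp only [E1, hW]
      by_cases h : Ac ⊆ S.Comp V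
      · rw [if_pos h, if_pos h]
        congr 1
        unfold dDw
        rw [S.uA_eq_bg]
        simp only [hc, hmm, if_pos h]
      · rw [if_neg h, if_neg h, zero_mul]
    simp_rw [e1]
    rw [e2]
    exact key.2
  · intro x
    exact Measurable.ite hset (S.measurable_c0 A m Ac x) measurable_const
  · intro x
    exact Measurable.ite hset (S.measurable_msk m Ac x) measurable_const
  · exact Measurable.ite hset (S.measurable_wt A _ Ac) measurable_const
  · intro V
    simp only [hW]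
    split_ifs with h
    · rw [abs_of_nonneg (S.wt_nonneg hS hp h)]
      exact S.wt_le_one hS hp h
    · rw [abs_zero]; exact zero_le_one
  · intro V x
    simp only [hmm]
    split_ifs with h
    · exact S.msk_nonneg hS m h x
    · exact le_refl _
  · intro V x
    simp only [hc]
    split_ifs with h
    · rcases S.msk_cases hS m h x with h' | h'
      · exact h'.2.le
      · exact h'.2
    · simp
  · intro V x
    simp only [hc, hmm]
    split_ifs with h
    · rcases S.msk_cases hS m h x with h' | h'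
      · exact Or.inl h'.2
      · right; rw [h'.1]; exact one_pos
    · left; simp

/-- the derivative of the functional in the absorption at the site `s` -/
noncomputable def dDs (A : Matrix ι ι ℝ) (ξ : κ' → ι → ℝ) (m : ℕ) (a : ℝ) (s : ι) (Ac : Finset 𝔅)
    (V : ι → ℝ) : ℝ :=
  S.msk m Ac V s * dD A ξ (S.uA A m a Ac V) s (S.uA A m a Ac V s)

theorem abs_dDs_le (hS : Good S A) (ξ : κ' → ι → ℝ) (m : ℕ) {a : ℝ} (ha : 0 < a) (s : ι)
    (hA : Ac ⊆ S.Comp V) :
    |S.dDs A ξ m a s Ac V| ≤ 5 / a * share A ξ (S.uA A m a Ac V) s := by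
  have hL := S.uA_loss (m := m) hS ha hA
  have h1 := dD_le_share hS.symm ξ hL s
  have h2 := S.msk_mul_le hS m ha hA s
  have h3 := S.msk_nonneg hS m hA s
  unfold dDs
  rw [abs_mul, abs_of_nonneg h3, div_mul_eq_mul_div, le_div_iff₀ ha]
  calc S.msk m Ac V s * |dD A ξ (S.uA A m a Ac V) s (S.uA A m a Ac V s)| * a
      = (a * S.msk m Ac V s) * |dD A ξ (S.uA A m a Ac V) s (S.uA A m a Ac V s)| := by ring
    _ ≤ gam (S.uA A m a Ac V) s * |dD A ξ (S.uA A m a Ac V) s (S.uA A m a Ac V s)| :=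
        mul_le_mul_of_nonneg_right h2 (abs_nonneg _)
    _ ≤ _ := h1

theorem bdd_dDs (hS : Good S A) (ξ : κ' → ι → ℝ) (m : ℕ) {a : ℝ} (ha : 0 < a) (s : ι) :
    Bdd S (S.dDs A ξ m a s) := by
  obtain ⟨C, hC⟩ := (S.bdd_share hS ξ m ha s).bdd
  refine ⟨fun Ac => ?_, 5 / a * |C|, fun V Ac hA => ?_⟩
  · unfold dDs
    exact (S.measurable_msk m Ac s).mul
      (measurable_dD A ξ (fun y => S.measurable_uA A m a Ac y) s (S.measurable_uA A m a Ac s))
  · refine (S.abs_dDs_le hS ξ m ha s hA).trans ?_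
    exact mul_le_mul_of_nonneg_left
      (((le_abs_self _).trans (hC V Ac hA)).trans (le_abs_self C)) (by positivity)

theorem Ex_neg_dDw (hS : Good S A) (ξ : κ' → ι → ℝ) (m : ℕ) {a : ℝ} (ha : 0 < a) {p : 𝔅 → ℝ}
    (hp : Adm p) : S.Ex A p (fun Ac V => -S.dDw A ξ m a Ac V) =
      ∑ s, S.Ex A p (fun Ac V => -S.dDs A ξ m a s Ac V) := by
  have hb : ∀ s, Bdd S fun Ac V => -S.dDs A ξ m a s Ac V := by
    intro s
    have := (S.bdd_dDs hS ξ m ha s).mul_const S (-1)
    simpa using this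
  rw [← S.Ex_sum hS hp univ (fun s Ac V => -S.dDs A ξ m a s Ac V) fun s _ => hb s]
  congr 1
  funext Ac V
  unfold dDw dDs
  rw [Finset.sum_neg_distrib]

/-- LOWERING THE BACKGROUND -/
theorem lower (hS : Good S A) (ξ : κ' → ι → ℝ) (m : ℕ) (K Z K2 e0 : ℝ) (hK : 0 < K) (hZ : 0 ≤ Z)
    (hK2 : 0 ≤ K2) (he0 : 0 ≤ e0) (hlt : S.et (m + 1) ≤ S.et m)
    (h : ∀ a, S.et (m + 1) < a → a < S.et m →
      S.Ex A (S.pim m 0) (fun Ac V => -S.dDw A ξ m a Ac V) ≤
        (Z * a ^ (-(7 / 8) : ℝ) + K2 * a⁻¹ + e0) * (S.Dw A ξ m 0 a + K)) :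
    S.Dw A ξ (m + 1) 1 (S.et (m + 1)) + K ≤ (S.Dw A ξ m 0 (S.et m) + K) *
      Real.exp (8 * Z * S.et m ^ (1 / 8 : ℝ) + K2 * Real.log (S.et m / S.et (m + 1)) +
        e0 * S.et m) := by
  rw [← S.Dw_succ]
  have he := S.et_pos (m + 1)
  have hem := S.et_pos m
  set D : ℝ → ℝ := fun a => S.Dw A ξ m 0 a with hD
  set Φ : ℝ → ℝ := fun a => 8 * Z * a ^ (1 / 8 : ℝ) + K2 * (Real.log a - Real.log (S.et (m + 1))) +
    e0 * a with hΦ
  have hder : ∀ a, 0 < a → HasDerivAt D (S.Ex A (S.pim m 0) (S.dDw A ξ m a)) a := fun a ha =>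
    S.hasDerivAt_Dw hS ξ m (le_refl 0) zero_le_one ha
  have hΦd : ∀ a, 0 < a → HasDerivAt Φ (Z * a ^ (-(7 / 8) : ℝ) + K2 * a⁻¹ + e0) a := by
    intro a ha
    have h1 := (Real.hasDerivAt_rpow_const (x := a) (p := 1 / 8) (Or.inl ha.ne')).const_mul (8 * Z)
    have h3 := ((Real.hasDerivAt_log ha.ne').sub_const (Real.log (S.et (m + 1)))).const_mul K2
    have h2 := (hasDerivAt_id a).const_mul e0
    refine ((h1.add h3).add h2).congr_deriv ?_
    have : (1 / 8 : ℝ) - 1 = -(7 / 8) := by norm_num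
    rw [this]
    ring
  have hneg : ∀ a, S.Ex A (S.pim m 0) (fun Ac V => -S.dDw A ξ m a Ac V) =
      -S.Ex A (S.pim m 0) (S.dDw A ξ m a) := by
    intro a
    have := S.Ex_mul (A := A) (p := S.pim m 0) (-1) (S.dDw A ξ m a)
    simpa using this
  have hmono : MonotoneOn (fun a => (D a + K) * Real.exp (Φ a)) (Set.Icc (S.et (m + 1)) (S.et m)) := by
    apply monotoneOn_of_deriv_nonneg (convex_Icc _ _)
    · intro a ha
      have ha0 : 0 < a := lt_of_lt_of_le he ha.1
      exact (((hder a ha0).add_const K).mul (hΦd a ha0).exp).continuousAt.continuousWithinAt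
    · intro a ha
      rw [interior_Icc] at ha
      have ha0 : 0 < a := lt_trans he ha.1
      exact (((hder a ha0).add_const K).mul (hΦd a ha0).exp).differentiableAt.differentiableWithinAt
    · intro a ha
      rw [interior_Icc] at ha
      have ha0 : 0 < a := lt_trans he ha.1
      rw [(((hder a ha0).add_const K).fun_mul (hΦd a ha0).exp).deriv]
      have h1 := h a ha.1 ha.2
      rw [hneg] at h1
      have e1 : S.Ex A (S.pim m 0) (S.dDw A ξ m a) * Real.exp (Φ a) +
          (D a + K) * (Real.exp (Φ a) * (Z * a ^ (-(7 / 8) : ℝ) + K2 * a⁻¹ + e0)) =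
          Real.exp (Φ a) * (S.Ex A (S.pim m 0) (S.dDw A ξ m a) +
            (Z * a ^ (-(7 / 8) : ℝ) + K2 * a⁻¹ + e0) * (D a + K)) := by ring
      rw [e1]
      refine mul_nonneg (Real.exp_pos _).le ?_
      have h2 : D a = S.Dw A ξ m 0 a := rfl
      rw [h2]
      linarith
  have h1 := hmono ⟨le_refl _, hlt⟩ ⟨hlt, le_refl _⟩ hlt
  simp only at h1
  have h2 : 1 ≤ Real.exp (Φ (S.et (m + 1))) := by
    rw [Real.one_le_exp_iff]
    simp only [hΦ, sub_self, mul_zero, add_zero]
    have := Real.rpow_nonneg he.le (1 / 8 : ℝ)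
    positivity
  have h3 : 0 ≤ D (S.et (m + 1)) + K := by
    have := S.Dw_nonneg (A := A) hS ξ m (le_refl 0) zero_le_one he
    simp only [hD]
    linarith
  have h4 : Φ (S.et m) = 8 * Z * S.et m ^ (1 / 8 : ℝ) +
      K2 * Real.log (S.et m / S.et (m + 1)) + e0 * S.et m := by
    simp only [hΦ]
    rw [Real.log_div hem.ne' he.ne']
  calc S.Dw A ξ m 0 (S.et (m + 1)) + K = (D (S.et (m + 1)) + K) * 1 := by simp only [hD, mul_one]
    _ ≤ (D (S.et (m + 1)) + K) * Real.exp (Φ (S.et (m + 1))) := mul_le_mul_of_nonneg_left h2 h3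
    _ ≤ (D (S.et m) + K) * Real.exp (Φ (S.et m)) := h1
    _ = _ := by rw [h4]

end Sys

end Pool.Agent.Lib.MP_562b47_mp.WO
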