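import Pool.Agent.Lib.MP_562b47_mp.AL.Defs
import Pool.Agent.Lib.MP_562b47_mp.Unif

/-!
MP_562b47, worlds: resampling of coordinates (Fubini).
-/

open MeasureTheory Matrix Finset

set_option linter.unusedSectionVars false

namespace Pool.Agent.Lib.MP_562b47_mp.WO

open Pool.Agent.Lib.MP_562b47_mp.AL Pool.Agent.Lib.MP_562b47_mp

variable {ι : Type*} [Fintype ι] [DecidableEq ι]

/-- the product of uniform laws -/
noncomputable def muc (ι : Type*) [Fintype ι] (c : ℝ) : Measure (ι → ℝ) :=
  Measure.pi fun _ : ι => unif c

theorem muc_prob {c : ℝ} (hc : 0 < c) : IsProbabilityMeasure (muc ι c) := by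
  unfold muc
  have := unif_prob hc
  infer_instance

/-- replace the coordinates in `T` by those of `U` -/
def mix (T : Finset ι) (U V : ι → ℝ) : ι → ℝ := fun x => if x ∈ T then U x else V x

theorem mix_mem {T : Finset ι} {x : ι} (h : x ∈ T) (U V : ι → ℝ) : mix T U V x = U x := if_pos h

theorem mix_not {T : Finset ι} {x : ι} (h : x ∉ T) (U V : ι → ℝ) : mix T U V x = V x := if_neg h

theorem measurable_mix (T : Finset ι) :
    Measurable fun q : (ι → ℝ) × (ι → ℝ) => mix T q.2 q.1 := by
  refine measurable_pi_lambda _ fun x => ?_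
  by_cases h : x ∈ T
  · simp only [mix_mem h]
    exact (measurable_pi_apply x).comp measurable_snd
  · simp only [mix_not h]
    exact (measurable_pi_apply x).comp measurable_fst

theorem map_mix {c : ℝ} (hc : 0 < c) (T : Finset ι) :
    Measure.map (fun q : (ι → ℝ) × (ι → ℝ) => mix T q.2 q.1) ((muc ι c).prod (muc ι c)) =
      muc ι c := by
  have hprob := unif_prob hc
  have := muc_prob (ι := ι) hc
  unfold muc
  refine (Measure.pi_eq fun s hs => ?_).symm
  rw [Measure.map_apply (measurable_mix T) (MeasurableSet.univ_pi hs)]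
  have h1 : (fun q : (ι → ℝ) × (ι → ℝ) => mix T q.2 q.1) ⁻¹' Set.pi Set.univ s =
      (Set.pi Set.univ fun x => if x ∈ T then Set.univ else s x) ×ˢ
        (Set.pi Set.univ fun x => if x ∈ T then s x else Set.univ) := by
    ext q
    simp only [Set.mem_preimage, Set.mem_pi, Set.mem_univ, true_implies, Set.mem_prod]
    constructor
    · intro h
      constructor
      · intro x
        by_cases hx : x ∈ T
        · rw [if_pos hx]; trivial
        · rw [if_neg hx]
          have := h x
          rwa [mix_not hx] at this
      · intro x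
        by_cases hx : x ∈ T
        · rw [if_pos hx]
          have := h x
          rwa [mix_mem hx] at this
        · rw [if_neg hx]; trivial
    · rintro ⟨ha, hb⟩ x
      by_cases hx : x ∈ T
      · rw [mix_mem hx]
        have := hb x
        rwa [if_pos hx] at this
      · rw [mix_not hx]
        have := ha x
        rwa [if_neg hx] at this
  rw [h1, Measure.prod_prod, Measure.pi_pi, Measure.pi_pi, ← Finset.prod_mul_distrib]
  refine Finset.prod_congr rfl fun x _ => ?_
  by_cases hx : x ∈ T
  · rw [if_pos hx, if_pos hx, measure_univ, one_mul]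
  · rw [if_neg hx, if_neg hx, measure_univ, mul_one]

theorem integrable_mix {c : ℝ} (hc : 0 < c) (T : Finset ι) {F : (ι → ℝ) → ℝ}
    (hF : Integrable F (muc ι c)) :
    Integrable (fun q : (ι → ℝ) × (ι → ℝ) => F (mix T q.2 q.1))
      ((muc ι c).prod (muc ι c)) := by
  have h := map_mix hc T
  rw [← h] at hF
  exact hF.comp_measurable (measurable_mix T)

/-- resampling the coordinates in `T` -/
theorem integral_mix {c : ℝ} (hc : 0 < c) (T : Finset ι) {F : (ι → ℝ) → ℝ}
    (hF : Integrable F (muc ι c)) :
    ∫ V, F V ∂(muc ι c) = ∫ V, ∫ U, F (mix T U V) ∂(muc ι c) ∂(muc ι c) := by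
  have := muc_prob (ι := ι) hc
  have h := map_mix hc T
  have h2 : ∫ V, F V ∂(muc ι c) =
      ∫ q : (ι → ℝ) × (ι → ℝ), F (mix T q.2 q.1) ∂((muc ι c).prod (muc ι c)) := by
    conv_lhs => rw [← h]
    rw [integral_map (measurable_mix T).aemeasurable]
    rw [h]
    exact hF.aestronglyMeasurable
  rw [h2, integral_prod _ (integrable_mix hc T hF)]

/-- comparison after resampling -/
theorem integral_le_of_mix {c : ℝ} (hc : 0 < c) (T : Finset ι) {F F' : (ι → ℝ) → ℝ}
    (hF : Integrable F (muc ι c)) (hF' : Integrable F' (muc ι c))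
    (h : ∀ V, ∫ U, F (mix T U V) ∂(muc ι c) ≤ ∫ U, F' (mix T U V) ∂(muc ι c)) :
    ∫ V, F V ∂(muc ι c) ≤ ∫ V, F' V ∂(muc ι c) := by
  have := muc_prob (ι := ι) hc
  rw [integral_mix hc T hF, integral_mix hc T hF']
  exact integral_mono (integrable_mix hc T hF).integral_prod_left
    (integrable_mix hc T hF').integral_prod_left h

/-! ### one coordinate -/

theorem measurable_upd (w : ι) :
    Measurable fun q : (ι → ℝ) × ℝ => Function.update q.1 w q.2 := by
  refine measurable_pi_lambda _ fun x => ?_
  by_cases h : x = w
  · subst h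
    simp only [Function.update_self]
    exact measurable_snd
  · simp only [Function.update_of_ne h]
    exact (measurable_pi_apply x).comp measurable_fst

theorem map_upd {c : ℝ} (hc : 0 < c) (w : ι) :
    Measure.map (fun q : (ι → ℝ) × ℝ => Function.update q.1 w q.2)
      ((muc ι c).prod (unif c)) = muc ι c := by
  have hprob := unif_prob hc
  have := muc_prob (ι := ι) hc
  unfold muc
  refine (Measure.pi_eq fun s hs => ?_).symm
  rw [Measure.map_apply (measurable_upd w) (MeasurableSet.univ_pi hs)]
  have h1 : (fun q : (ι → ℝ) × ℝ => Function.update q.1 w q.2) ⁻¹' Set.pi Set.univ s =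
      (Set.pi Set.univ fun x => if x = w then Set.univ else s x) ×ˢ (s w) := by
    ext q
    simp only [Set.mem_preimage, Set.mem_pi, Set.mem_univ, true_implies, Set.mem_prod]
    constructor
    · intro h
      constructor
      · intro x
        by_cases hx : x = w
        · rw [if_pos hx]; trivial
        · rw [if_neg hx]
          have := h x
          rwa [Function.update_of_ne hx] at this
      · have := h w
        rwa [Function.update_self] at this
    · rintro ⟨ha, hb⟩ x
      by_cases hx : x = w
      · subst hx
        rw [Function.update_self]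
        exact hb
      · rw [Function.update_of_ne hx]
        have := ha x
        rwa [if_neg hx] at this
  rw [h1, Measure.prod_prod, Measure.pi_pi]
  rw [← Finset.mul_prod_erase univ (fun x => (unif c) (s x)) (mem_univ w),
    ← Finset.mul_prod_erase univ
      (fun x => (unif c) (if x = w then Set.univ else s x)) (mem_univ w), if_pos rfl, measure_univ,
    one_mul, mul_comm]
  congr 1
  refine Finset.prod_congr rfl fun x hx => ?_
  rw [if_neg (Finset.ne_of_mem_erase hx)]

theorem integrable_upd {c : ℝ} (hc : 0 < c) (w : ι) {F : (ι → ℝ) → ℝ}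
    (hF : Integrable F (muc ι c)) :
    Integrable (fun q : (ι → ℝ) × ℝ => F (Function.update q.1 w q.2))
      ((muc ι c).prod (unif c)) := by
  have h := map_upd hc w
  rw [← h] at hF
  exact hF.comp_measurable (measurable_upd w)

/-- resampling the coordinate `w` -/
theorem integral_upd {c : ℝ} (hc : 0 < c) (w : ι) {F : (ι → ℝ) → ℝ}
    (hF : Integrable F (muc ι c)) :
    ∫ V, F V ∂(muc ι c) = ∫ V, ∫ v, F (Function.update V w v) ∂(unif c) ∂(muc ι c) := by
  have := muc_prob (ι := ι) hc
  have := unif_prob hc
  have h := map_upd hc w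
  have h2 : ∫ V, F V ∂(muc ι c) =
      ∫ q : (ι → ℝ) × ℝ, F (Function.update q.1 w q.2) ∂((muc ι c).prod (unif c)) := by
    conv_lhs => rw [← h]
    rw [integral_map (measurable_upd w).aemeasurable]
    rw [h]
    exact hF.aestronglyMeasurable
  rw [h2, integral_prod _ (integrable_upd hc w hF)]

/-- comparison after resampling the coordinate `w` -/
theorem integral_le_of_upd {c : ℝ} (hc : 0 < c) (w : ι) {F F' : (ι → ℝ) → ℝ}
    (hF : Integrable F (muc ι c)) (hF' : Integrable F' (muc ι c))
    (h : ∀ V, ∫ v, F (Function.update V w v) ∂(unif c) ≤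
      ∫ v, F' (Function.update V w v) ∂(unif c)) :
    ∫ V, F V ∂(muc ι c) ≤ ∫ V, F' V ∂(muc ι c) := by
  have := muc_prob (ι := ι) hc
  have := unif_prob hc
  rw [integral_upd hc w hF, integral_upd hc w hF']
  exact integral_mono (integrable_upd hc w hF).integral_prod_left
    (integrable_upd hc w hF').integral_prod_left h

/-! ### the hidden law -/

end Pool.Agent.Lib.MP_562b47_mp.WO
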