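import Pool.Agent.Lib.MP_562b47_mp.WO.Meas

/-!
MP_562b47, worlds: the weights of the sets of active blocks, expectations.
-/

open MeasureTheory Matrix Finset

set_option linter.unusedSectionVars false

namespace Pool.Agent.Lib.MP_562b47_mp.WO

open Pool.Agent.Lib.MP_562b47_mp.AL Pool.Agent.Lib.MP_562b47_mp

variable {ι 𝔅 : Type*} [Fintype ι] [DecidableEq ι] [Fintype 𝔅] [DecidableEq 𝔅]

/-- admissible activation probabilities -/
def Adm (p : 𝔅 → ℝ) : Prop := ∀ b, 0 ≤ p b ∧ p b ≤ 1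

namespace Sys

variable (S : Sys ι 𝔅) {A : Matrix ι ι ℝ} {p : 𝔅 → ℝ} {V : ι → ℝ} {Ac : Finset 𝔅} {b : 𝔅}

theorem hh_nonneg (hS : Good S A) (hb : b ∈ S.Comp V) : 0 ≤ S.hh A b V := by
  have hc := (S.mem_Comp).mp hb
  have hg := hS.g_pos b V hc
  unfold hh
  have h1 := SL.ff_nonneg hg S.r_pos (V (S.w b) - S.ze A b V)
  have h2 := S.c_pos
  have h3 := S.κ_pos
  positivity

theorem hh_le (hS : Good S A) (hb : b ∈ S.Comp V) : S.hh A b V ≤ 1 / 2 := by
  have hc := (S.mem_Comp).mp hb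
  have hg := hS.g_pos b V hc
  have h1 := SL.ff_le_max hg S.r_pos (V (S.w b) - S.ze A b V)
  have h2 := S.c_pos
  have h3 := S.κ_pos
  have h4 := S.κ_le
  have hpi : 3 < Real.pi := Real.pi_gt_three
  unfold hh
  calc 2 * S.c * (S.κ * S.gg A b V) * SL.ff (S.gg A b V) S.r (V (S.w b) - S.ze A b V)
      ≤ 2 * S.c * (S.κ * S.gg A b V) * (1 / (Real.pi * S.gg A b V)) := by
        gcongr
    _ = 2 * S.c * S.κ / Real.pi := by field_simp
    _ ≤ 2 * S.c * S.κ / 1 := by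
        apply div_le_div_of_nonneg_left (by positivity) one_pos (by linarith)
    _ ≤ 1 / 2 := by linarith

theorem wt_nonneg (hS : Good S A) (hp : Adm p) (hA : Ac ⊆ S.Comp V) : 0 ≤ S.wt A p V Ac := by
  unfold wt
  apply mul_nonneg
  · exact Finset.prod_nonneg fun b hb => mul_nonneg (hp b).1 (S.hh_nonneg hS (hA hb))
  · refine Finset.prod_nonneg fun b hb => ?_
    have hb' : b ∈ S.Comp V := (Finset.mem_sdiff.mp hb).1
    have h1 := S.hh_nonneg hS hb'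
    have h2 := S.hh_le hS hb'
    have h3 : p b * S.hh A b V ≤ 1 * S.hh A b V := mul_le_mul_of_nonneg_right (hp b).2 h1
    linarith

theorem wt_sum (A : Matrix ι ι ℝ) (p : 𝔅 → ℝ) (V : ι → ℝ) :
    ∑ Ac ∈ (S.Comp V).powerset, S.wt A p V Ac = 1 := by
  unfold wt
  rw [← Finset.prod_add]
  exact Finset.prod_eq_one fun b _ => by ring

theorem wt_le_one (hS : Good S A) (hp : Adm p) (hA : Ac ⊆ S.Comp V) : S.wt A p V Ac ≤ 1 := by
  rw [← S.wt_sum A p V]
  exact Finset.single_le_sum (f := fun Ac => S.wt A p V Ac)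
    (fun B hB => S.wt_nonneg hS hp (Finset.mem_powerset.mp hB)) (Finset.mem_powerset.mpr hA)

/-- the integrand of `Ex` -/
noncomputable def Ei (A : Matrix ι ι ℝ) (p : 𝔅 → ℝ) (F : Finset 𝔅 → (ι → ℝ) → ℝ) (V : ι → ℝ) : ℝ :=
  ∑ Ac ∈ (S.Comp V).powerset, S.wt A p V Ac * F Ac V

theorem Ex_eq (A : Matrix ι ι ℝ) (p : 𝔅 → ℝ) (F : Finset 𝔅 → (ι → ℝ) → ℝ) :
    S.Ex A p F = ∫ V, S.Ei A p F V ∂(S.mu) := rfl

instance : IsProbabilityMeasure (S.mu) := by
  unfold mu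
  have := unif_prob S.c_pos
  infer_instance

theorem measurable_Ei {F : Finset 𝔅 → (ι → ℝ) → ℝ} (hF : ∀ Ac, Measurable (F Ac)) :
    Measurable (S.Ei A p F) := by
  unfold Ei
  exact S.measurable_of_Comp (F := fun B V => ∑ Ac ∈ B.powerset, S.wt A p V Ac * F Ac V)
    fun B => Finset.measurable_fun_sum _ fun Ac _ => (S.measurable_wt A p Ac).mul (hF Ac)

theorem Ei_mono (hS : Good S A) (hp : Adm p) {F F' : Finset 𝔅 → (ι → ℝ) → ℝ}
    (h : ∀ Ac ⊆ S.Comp V, F Ac V ≤ F' Ac V) : S.Ei A p F V ≤ S.Ei A p F' V :=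
  Finset.sum_le_sum fun Ac hA =>
    mul_le_mul_of_nonneg_left (h Ac (Finset.mem_powerset.mp hA))
      (S.wt_nonneg hS hp (Finset.mem_powerset.mp hA))

theorem Ei_congr {F F' : Finset 𝔅 → (ι → ℝ) → ℝ}
    (h : ∀ Ac ⊆ S.Comp V, F Ac V = F' Ac V) : S.Ei A p F V = S.Ei A p F' V :=
  Finset.sum_congr rfl fun Ac hA => by rw [h Ac (Finset.mem_powerset.mp hA)]

theorem Ei_const (C : ℝ) : S.Ei A p (fun _ _ => C) V = C := by
  unfold Ei
  rw [← Finset.sum_mul, S.wt_sum, one_mul]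

theorem abs_Ei_le (hS : Good S A) (hp : Adm p) {F : Finset 𝔅 → (ι → ℝ) → ℝ} {C : ℝ}
    (h : ∀ Ac ⊆ S.Comp V, |F Ac V| ≤ C) : |S.Ei A p F V| ≤ C := by
  rw [abs_le]
  constructor
  · rw [← S.Ei_const (A := A) (p := p) (V := V) (-C)]
    exact S.Ei_mono hS hp fun Ac hA => (abs_le.mp (h Ac hA)).1
  · rw [← S.Ei_const (A := A) (p := p) (V := V) C]
    exact S.Ei_mono hS hp fun Ac hA => (abs_le.mp (h Ac hA)).2

/-- bounded measurable functionals of the world -/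
structure Bdd (S : Sys ι 𝔅) (F : Finset 𝔅 → (ι → ℝ) → ℝ) : Prop where
  meas : ∀ Ac, Measurable (F Ac)
  bdd : ∃ C, ∀ V, ∀ Ac ⊆ S.Comp V, |F Ac V| ≤ C

theorem integrable_Ei (hS : Good S A) (hp : Adm p) {F : Finset 𝔅 → (ι → ℝ) → ℝ}
    (hF : Bdd S F) : Integrable (S.Ei A p F) S.mu := by
  obtain ⟨C, hC⟩ := hF.bdd
  exact Integrable.of_bound (S.measurable_Ei hF.meas).aestronglyMeasurable C
    (Filter.Eventually.of_forall fun V => by
      rw [Real.norm_eq_abs]; exact S.abs_Ei_le hS hp (hC V))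

theorem Ex_mono (hS : Good S A) (hp : Adm p) {F F' : Finset 𝔅 → (ι → ℝ) → ℝ}
    (hF : Bdd S F) (hF' : Bdd S F') (h : ∀ V, ∀ Ac ⊆ S.Comp V, F Ac V ≤ F' Ac V) :
    S.Ex A p F ≤ S.Ex A p F' := by
  rw [Ex_eq, Ex_eq]
  exact integral_mono (S.integrable_Ei hS hp hF) (S.integrable_Ei hS hp hF')
    fun V => S.Ei_mono hS hp (h V)

theorem Ex_nonneg (hS : Good S A) (hp : Adm p) {F : Finset 𝔅 → (ι → ℝ) → ℝ}
    (h : ∀ V, ∀ Ac ⊆ S.Comp V, 0 ≤ F Ac V) : 0 ≤ S.Ex A p F := by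
  rw [Ex_eq]
  refine integral_nonneg fun V => ?_
  exact Finset.sum_nonneg fun Ac hA => mul_nonneg
    (S.wt_nonneg hS hp (Finset.mem_powerset.mp hA)) (h V Ac (Finset.mem_powerset.mp hA))

theorem Ex_const (C : ℝ) : S.Ex A p (fun _ _ => C) = C := by
  rw [Ex_eq]
  simp only [S.Ei_const, integral_const, probReal_univ, smul_eq_mul, one_mul]

theorem Ex_add (hS : Good S A) (hp : Adm p) {F F' : Finset 𝔅 → (ι → ℝ) → ℝ}
    (hF : Bdd S F) (hF' : Bdd S F') :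
    S.Ex A p (fun Ac V => F Ac V + F' Ac V) = S.Ex A p F + S.Ex A p F' := by
  rw [Ex_eq, Ex_eq, Ex_eq, ← integral_add (S.integrable_Ei hS hp hF) (S.integrable_Ei hS hp hF')]
  refine integral_congr_ae (Filter.Eventually.of_forall fun V => ?_)
  simp only [Ei, mul_add, Finset.sum_add_distrib]

theorem Ex_mul (c : ℝ) (F : Finset 𝔅 → (ι → ℝ) → ℝ) :
    S.Ex A p (fun Ac V => c * F Ac V) = c * S.Ex A p F := by
  rw [Ex_eq, Ex_eq, ← integral_const_mul]
  refine integral_congr_ae (Filter.Eventually.of_forall fun V => ?_)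
  simp only [Ei]
  rw [Finset.mul_sum]
  refine Finset.sum_congr rfl fun Ac _ => by ring

theorem Ex_sum (hS : Good S A) (hp : Adm p) {α : Type*} (s : Finset α)
    (F : α → Finset 𝔅 → (ι → ℝ) → ℝ) (hF : ∀ i ∈ s, Bdd S (F i)) :
    S.Ex A p (fun Ac V => ∑ i ∈ s, F i Ac V) = ∑ i ∈ s, S.Ex A p (F i) := by
  simp only [Ex_eq]
  rw [← integral_finsetSum s fun i hi => S.integrable_Ei hS hp (hF i hi)]
  refine integral_congr_ae (Filter.Eventually.of_forall fun V => ?_)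
  simp only [Ei, Finset.mul_sum]
  rw [Finset.sum_comm]

theorem Bdd.add {F F' : Finset 𝔅 → (ι → ℝ) → ℝ} (hF : Bdd S F) (hF' : Bdd S F') :
    Bdd S fun Ac V => F Ac V + F' Ac V := by
  obtain ⟨C, hC⟩ := hF.bdd
  obtain ⟨C', hC'⟩ := hF'.bdd
  exact ⟨fun Ac => (hF.meas Ac).add (hF'.meas Ac), C + C', fun V Ac hA =>
    (abs_add_le _ _).trans (add_le_add (hC V Ac hA) (hC' V Ac hA))⟩

theorem Bdd.mul_const {F : Finset 𝔅 → (ι → ℝ) → ℝ} (hF : Bdd S F) (c : ℝ) :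
    Bdd S fun Ac V => c * F Ac V := by
  obtain ⟨C, hC⟩ := hF.bdd
  refine ⟨fun Ac => (hF.meas Ac).const_mul c, |c| * C, fun V Ac hA => ?_⟩
  rw [abs_mul]
  exact mul_le_mul_of_nonneg_left (hC V Ac hA) (abs_nonneg _)

theorem Bdd.const (c : ℝ) : Bdd S fun _ _ => c :=
  ⟨fun _ => measurable_const, |c|, fun _ _ _ => le_refl _⟩

theorem Bdd.sum {α : Type*} (s : Finset α) {F : α → Finset 𝔅 → (ι → ℝ) → ℝ}
    (hF : ∀ i ∈ s, Bdd S (F i)) : Bdd S fun Ac V => ∑ i ∈ s, F i Ac V := by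
  refine ⟨fun Ac => Finset.measurable_fun_sum _ fun i hi => (hF i hi).meas Ac, ?_⟩
  choose! C hC using fun i (hi : i ∈ s) => (hF i hi).bdd
  refine ⟨∑ i ∈ s, C i, fun V Ac hA => ?_⟩
  exact (Finset.abs_sum_le_sum_abs _ _).trans (Finset.sum_le_sum fun i hi => hC i hi V Ac hA)

/-- restriction to a subset of the possible active sets -/
theorem Bdd.ite {F : Finset 𝔅 → (ι → ℝ) → ℝ} (hF : Bdd S F) (P : Finset 𝔅 → Prop)
    [DecidablePred P] : Bdd S fun Ac V => if P Ac then F Ac V else 0 := by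
  obtain ⟨C, hC⟩ := hF.bdd
  refine ⟨fun Ac => ?_, |C|, fun V Ac hA => ?_⟩
  · by_cases h : P Ac
    · simp only [if_pos h]; exact hF.meas Ac
    · simp only [if_neg h]; exact measurable_const
  · by_cases h : P Ac
    · simp only [if_pos h]; exact (hC V Ac hA).trans (le_abs_self _)
    · simp only [if_neg h, abs_zero]; exact abs_nonneg _

/-! ### the functional -/

variable {κ' : Type*} [Fintype κ']

theorem bdd_DU (hS : Good S A) (ξ : κ' → ι → ℝ) (m : ℕ) {a : ℝ} (ha : 0 < a) :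
    Bdd S fun Ac V => DU A ξ (S.uA A m a Ac V) := by
  refine ⟨fun Ac => measurable_DU A ξ fun x => S.measurable_uA A m a Ac x,
    ∑ x, ∑ y, ff ξ x y, fun V Ac hA => ?_⟩
  have hL := S.uA_loss (m := m) hS ha hA
  rw [abs_of_nonneg (DU_nonneg ξ hL)]
  exact DU_le hS.symm hL ξ

theorem bdd_share (hS : Good S A) (ξ : κ' → ι → ℝ) (m : ℕ) {a : ℝ} (ha : 0 < a) (s : ι) :
    Bdd S fun Ac V => share A ξ (S.uA A m a Ac V) s := by
  refine ⟨fun Ac => measurable_share A ξ (fun x => S.measurable_uA A m a Ac x) s,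
    2 * ∑ x, ∑ y, ff ξ x y, fun V Ac hA => ?_⟩
  have hL := S.uA_loss (m := m) hS ha hA
  rw [abs_of_nonneg (share_nonneg ξ hL s)]
  exact (share_le_DU ξ hL s).trans (mul_le_mul_of_nonneg_left (DU_le hS.symm hL ξ) two_pos.le)

theorem adm_pim (m : ℕ) {t : ℝ} (h0 : 0 ≤ t) (h1 : t ≤ 1) : Adm (S.pim m t) := by
  intro b
  unfold pim
  split_ifs
  · exact ⟨le_refl _, zero_le_one⟩
  · exact ⟨h0, h1⟩
  · exact ⟨zero_le_one, le_refl _⟩

theorem pim_zero (m : ℕ) : S.pim m 0 = S.pim (m + 1) 1 := by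
  funext b
  unfold pim
  by_cases h1 : S.cls b < m
  · rw [if_pos h1, if_pos (by omega)]
  · rw [if_neg h1]
    by_cases h2 : S.cls b = m
    · rw [if_pos h2, if_pos (by omega)]
    · rw [if_neg h2, if_neg (by omega)]
      split_ifs <;> rfl

/-- change of the class at the end of the lowering: `Dw m 0 (et (m+1)) = Dw (m+1) 1 (et (m+1))` -/
theorem Dw_succ (A : Matrix ι ι ℝ) (ξ : κ' → ι → ℝ) (m : ℕ) :
    S.Dw A ξ m 0 (S.et (m + 1)) = S.Dw A ξ (m + 1) 1 (S.et (m + 1)) := by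
  unfold Dw
  rw [S.pim_zero]
  have : ∀ (Ac : Finset 𝔅) (V : ι → ℝ), S.uA A m (S.et (m + 1)) Ac V =
      S.uA A (m + 1) (S.et (m + 1)) Ac V := by
    intro Ac V
    funext x
    unfold uA
    rw [S.bk_succ]
    congr 1
    refine Finset.sum_congr rfl fun b _ => ?_
    have e : (if m < S.cls b then S.et (S.cls b) - S.et (m + 1) else 0) =
        if m + 1 < S.cls b then S.et (S.cls b) - S.et (m + 1) else 0 := by
      by_cases h1 : m + 1 < S.cls b
      · rw [if_pos h1, if_pos (by omega)]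
      · rw [if_neg h1]
        by_cases h2 : m < S.cls b
        · rw [if_pos h2]
          have : S.cls b = m + 1 := by omega
          rw [this, sub_self]
        · rw [if_neg h2]
    rw [e]
  simp only [this]

theorem Dw_nonneg (hS : Good S A) (ξ : κ' → ι → ℝ) (m : ℕ) {t a : ℝ} (h0 : 0 ≤ t) (h1 : t ≤ 1)
    (ha : 0 < a) : 0 ≤ S.Dw A ξ m t a :=
  S.Ex_nonneg hS (S.adm_pim m h0 h1) fun _ _ hA => DU_nonneg ξ (S.uA_loss hS ha hA)

end Sys

end Pool.Agent.Lib.MP_562b47_mp.WO
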