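import Pool.Agent.Lib.MP_562b47_mp.WO.Mix
import Pool.Agent.Lib.MP_562b47_mp.WO.Weights
import Pool.Agent.Lib.MP_562b47_mp.WO.Mix
import Pool.Agent.Lib.MP_562b47_mp.SL.Var

/-!
MP_562b47, worlds: resampling of coordinates, the hidden law.
-/

open MeasureTheory Matrix Finset

set_option linter.unusedSectionVars false

namespace Pool.Agent.Lib.MP_562b47_mp.WO

open Pool.Agent.Lib.MP_562b47_mp.AL Pool.Agent.Lib.MP_562b47_mp

variable {ι : Type*} [Fintype ι] [DecidableEq ι]

/-! ### the hidden law -/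

/-- integrating against the density `2 c p f(v - ζ)` of the flagged potentials -/
theorem integral_unif_ff {c g r ζ : ℝ} (hc : 0 < c) (hg : 0 < g) (hr : 0 < r) (hgr : g ≤ r)
    (hζ : |ζ| + 5 * r ≤ c) (q : ℝ) (F : ℝ → ℝ) :
    ∫ v, 2 * c * q * SL.ff g r (v - ζ) * F v ∂(unif c) = q * ∫ v, F (ζ + v) ∂(SL.nuM g r) := by
  rw [integral_unif hc, SL.integral_nuM hg hr]
  have hsupp : ∀ v, v ∉ Set.Ioc (-c) c → 2 * c * q * SL.ff g r (v - ζ) * F v = 0 := by
    intro v hv
    have h1 : 5 * r ≤ |v - ζ| := by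
      have h2 : c ≤ |v| := by
        by_contra h
        push Not at h
        rw [abs_lt] at h
        exact hv ⟨h.1, h.2.le⟩
      have h3 : |v| ≤ |v - ζ| + |ζ| := by
        have := abs_add_le (v - ζ) ζ
        simpa using this
      linarith
    rw [SL.ff_eq_zero hg hr hgr h1]
    ring
  have h1 : ∫ v in (-c)..c, 2 * c * q * SL.ff g r (v - ζ) * F v =
      ∫ v, 2 * c * q * SL.ff g r (v - ζ) * F v := by
    rw [intervalIntegral.integral_of_le (by linarith)]
    exact setIntegral_eq_integral_of_forall_compl_eq_zero hsupp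
  rw [h1]
  have h2 : ∀ v, 2 * c * q * SL.ff g r (v - ζ) * F v =
      2 * c * q * (SL.ff g r (v - ζ) * F (ζ + (v - ζ))) := by
    intro v
    rw [add_sub_cancel]
    ring
  simp_rw [h2]
  rw [integral_const_mul]
  have h3 := integral_sub_right_eq_self (μ := volume) (fun v => SL.ff g r v * F (ζ + v)) ζ
  rw [h3]
  simp only [smul_eq_mul]
  have : (2 * c)⁻¹ * (2 * c * q * ∫ v, SL.ff g r v * F (ζ + v)) =
      q * ∫ v, SL.ff g r v * F (ζ + v) := by
    field_simp
  exact this

end Pool.Agent.Lib.MP_562b47_mp.WO
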