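import Pool.Agent.Lib.MP_562b47_mp.WO.Trade
import Pool.Agent.Lib.MP_562b47_mp.EC.Exp

/-!
MP_562b47, worlds: the thinning step, with the end of the thinning (EC.share_bound) inserted.
-/

open MeasureTheory Matrix Finset

set_option linter.unusedSectionVars false

namespace Pool.Agent.Lib.MP_562b47_mp.WO

open Pool.Agent.Lib.MP_562b47_mp.AL Pool.Agent.Lib.MP_562b47_mp

variable {ι 𝔅 κ' : Type*} [Fintype ι] [DecidableEq ι] [Fintype 𝔅] [DecidableEq 𝔅] [Fintype κ']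

namespace Sys

variable (S : Sys ι 𝔅) {A : Matrix ι ι ℝ}

/-- the shares of the active blocks of class `m` -/
noncomputable def shs (A : Matrix ι ι ℝ) (ξ : κ' → ι → ℝ) (m : ℕ) (a : ℝ) (Ac : Finset 𝔅)
    (V : ι → ℝ) : ℝ :=
  ∑ b ∈ S.cm m Ac, share A ξ (S.uA A m a Ac V) (S.w b)

/-- the errors of the active blocks of class `m` -/
noncomputable def ers (A : Matrix ι ι ℝ) (ξ : κ' → ι → ℝ) (m : ℕ) (a : ℝ) (Ac : Finset 𝔅)
    (V : ι → ℝ) : ℝ :=
  ∑ b ∈ S.cm m Ac, S.err A ξ m a b Ac V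

theorem cm_sum_eq (m : ℕ) (Ac : Finset 𝔅) (f : 𝔅 → ℝ) :
    ∑ b ∈ S.cm m Ac, f b = ∑ b : 𝔅, if b ∈ S.cm m Ac then f b else 0 := by
  rw [Finset.sum_ite_mem, Finset.univ_inter]

theorem bdd_shs (hS : Good S A) (ξ : κ' → ι → ℝ) (m : ℕ) {a : ℝ} (ha : 0 < a) :
    Bdd S (S.shs A ξ m a) := by
  have : S.shs A ξ m a = fun Ac V => ∑ b : 𝔅, if b ∈ S.cm m Ac then
      share A ξ (S.uA A m a Ac V) (S.w b) else 0 := by
    funext Ac V
    exact S.cm_sum_eq m Ac _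
  rw [this]
  exact Bdd.sum S univ fun b _ => (S.bdd_share hS ξ m ha (S.w b)).ite S (fun Ac => b ∈ S.cm m Ac)

theorem bdd_ers (hS : Good S A) (ξ : κ' → ι → ℝ) (m : ℕ) {a : ℝ} (ha : 0 < a) :
    Bdd S (S.ers A ξ m a) := by
  have : S.ers A ξ m a = fun Ac V => ∑ b : 𝔅, if b ∈ S.cm m Ac then
      S.err A ξ m a b Ac V else 0 := by
    funext Ac V
    exact S.cm_sum_eq m Ac _
  rw [this]
  exact Bdd.sum S univ fun b _ => S.bdd_err hS ξ m ha b

/-- the shares of the active blocks of class `m` are at most `2 DU` -/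
theorem shs_le (hS : Good S A) (ξ : κ' → ι → ℝ) (m : ℕ) {a : ℝ} (ha : 0 < a) {Ac : Finset 𝔅}
    {V : ι → ℝ} (hA : Ac ⊆ S.Comp V) : S.shs A ξ m a Ac V ≤ 2 * DU A ξ (S.uA A m a Ac V) := by
  have hL := S.uA_loss (m := m) hS ha hA
  have hinj : Set.InjOn S.w (S.cm m Ac : Set 𝔅) := by
    intro b hb b' hb' h
    by_contra hne
    have h1 := hA ((S.mem_cm).mp (mem_coe.mp hb)).1
    have h2 := hA ((S.mem_cm).mp (mem_coe.mp hb')).1
    exact S.not_mem_of_ne h1 h2 (fun h' => hne h'.symm) (S.w_mem b') (by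
      rw [← h]; exact S.w_mem b)
  unfold shs
  rw [← Finset.sum_image (f := fun s => share A ξ (S.uA A m a Ac V) s) hinj, ← sum_share]
  exact Finset.sum_le_univ_sum_of_nonneg fun s => share_nonneg ξ hL s

theorem Ex_shs_le (hS : Good S A) (ξ : κ' → ι → ℝ) (m : ℕ) {a t : ℝ} (ha : 0 < a) (h0 : 0 ≤ t)
    (h1 : t ≤ 1) : S.Ex A (S.pim m t) (S.shs A ξ m a) ≤ 2 * S.Dw A ξ m t a := by
  have hp := S.adm_pim m h0 h1
  unfold Dw
  rw [← S.Ex_mul]
  exact S.Ex_mono hS hp (S.bdd_shs hS ξ m ha) ((S.bdd_DU hS ξ m ha).mul_const S 2)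
    fun V Ac hA => S.shs_le hS ξ m ha hA

/-- the errors are at most a constant times the shares -/
theorem ers_le (hS : Good S A) (ξ : κ' → ι → ℝ) (m : ℕ) {a : ℝ} (ha : 0 < a) {Ac : Finset 𝔅}
    {V : ι → ℝ} (hA : Ac ⊆ S.Comp V) : S.ers A ξ m a Ac V ≤ 17600 * S.shs A ξ m a Ac V := by
  unfold ers shs
  rw [Finset.mul_sum]
  refine Finset.sum_le_sum fun b hb => ?_
  have h := (S.mem_cm).mp hb
  exact S.err_le_share hS ξ ha hA h.1 h.2

theorem Ex_ers_le (hS : Good S A) (ξ : κ' → ι → ℝ) (m : ℕ) {a t : ℝ} (ha : 0 < a) (h0 : 0 ≤ t)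
    (h1 : t ≤ 1) :
    S.Ex A (S.pim m t) (S.ers A ξ m a) ≤ 17600 * S.Ex A (S.pim m t) (S.shs A ξ m a) := by
  have hp := S.adm_pim m h0 h1
  rw [← S.Ex_mul]
  exact S.Ex_mono hS hp (S.bdd_ers hS ξ m ha) ((S.bdd_shs hS ξ m ha).mul_const S 17600)
    fun V Ac hA => S.ers_le hS ξ m ha hA

/-- THINNING: class `m` is removed -/
theorem thin (hS : Good S A) (ξ : κ' → ι → ℝ) (m : ℕ) {a dm : ℝ} (hE : EC.EHyp S A ξ m a dm)
    (ha : 0 < a) (hι : 0 < Fintype.card ι) (e p0 : ℝ) (he : 0 ≤ e) (hp0 : 0 < p0) (hp1 : p0 ≤ 1)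
    (hLB : ∀ t, 0 < t → t ≤ 1 → S.Ex A (S.pim m t) (S.ers A ξ m a) ≤
      e * (S.Dw A ξ m t a + Fintype.card ι)) :
    S.Dw A ξ m 0 a + Fintype.card ι ≤ (S.Dw A ξ m 1 a + Fintype.card ι) *
      Real.exp (e * Real.log (1 / p0) + 17600 * EC.Lc S m a dm * p0) := by
  have hK : (0 : ℝ) < Fintype.card ι := by exact_mod_cast hι
  have hL := EC.Lc_nonneg S m ha hE.dm_nonneg
  refine S.stage hS ξ m ha _ e (17600 * EC.Lc S m a dm) p0 hK he (by positivity) hp0 hp1 hLB ?_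
  intro t h0 h1
  have h2 := S.Ex_ers_le hS ξ m ha h0.le h1
  have h3 : S.Ex A (S.pim m t) (S.shs A ξ m a) ≤
      t * EC.Lc S m a dm * (S.Dw A ξ m t a + Fintype.card ι) :=
    EC.share_bound hS hE ha h0.le h1
  calc S.Ex A (S.pim m t) (S.ers A ξ m a) ≤ 17600 * S.Ex A (S.pim m t) (S.shs A ξ m a) := h2
    _ ≤ 17600 * (t * EC.Lc S m a dm * (S.Dw A ξ m t a + Fintype.card ι)) := by gcongr
    _ = _ := by ring

/-- the same, with the optimal choice of `p0` -/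
theorem thin_eps (hS : Good S A) (ξ : κ' → ι → ℝ) (m : ℕ) {a dm : ℝ} (hE : EC.EHyp S A ξ m a dm)
    (ha : 0 < a) (hι : 0 < Fintype.card ι) (e ε : ℝ) (he : 0 ≤ e) (hε : 0 < ε)
    (hLB : ∀ t, 0 < t → t ≤ 1 → S.Ex A (S.pim m t) (S.ers A ξ m a) ≤
      e * (S.Dw A ξ m t a + Fintype.card ι)) :
    S.Dw A ξ m 0 a + Fintype.card ι ≤ (S.Dw A ξ m 1 a + Fintype.card ι) *
      Real.exp (e * Real.log (1 + 17600 * EC.Lc S m a dm / ε) + ε) := by
  have hL := EC.Lc_nonneg S m ha hE.dm_nonneg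
  set Y : ℝ := 17600 * EC.Lc S m a dm / ε with hY
  have hY0 : 0 ≤ Y := by positivity
  have h1 := S.thin hS ξ m hE ha hι e (1 / (1 + Y)) he (by positivity)
    (by rw [div_le_one (by positivity)]; linarith) hLB
  refine h1.trans ?_
  have hD : 0 ≤ S.Dw A ξ m 1 a + Fintype.card ι := by
    have := S.Dw_nonneg hS ξ m zero_le_one (le_refl 1) ha
    positivity
  refine mul_le_mul_of_nonneg_left (Real.exp_le_exp.mpr ?_) hD
  rw [one_div_one_div]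
  have h2 : 17600 * EC.Lc S m a dm * (1 / (1 + Y)) ≤ ε := by
    have h3 : 17600 * EC.Lc S m a dm = Y * ε := by rw [hY]; field_simp
    rw [h3, mul_one_div, div_le_iff₀ (by positivity)]
    nlinarith
  linarith

end Sys

end Pool.Agent.Lib.MP_562b47_mp.WO
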