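import Pool.Agent.Lib.MP_562b47_mp.AL.Defs
import Pool.Agent.Lib.MP_562b47_mp.SL.Shape
import Pool.Agent.Lib.MP_562b47_mp.Unif

/-!
MP_562b47, d = 2, global part: the worlds (definitions).

`ι` = finite set of sites (a box of `ℤ²`), `𝔅` = finite set of blocks (all classes), `A` = real
symmetric matrix (hopping + 4 - E).  The potential `V : ι → ℝ` has independent coordinates, uniform
on `[-c, c]`.  A block is complete if `V x` lies in its window for all its sites but the centre.
Given `V`, every complete block `b` is ACTIVE with probability `π b * hh b V`, independently; the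
potential at the centre of an active block is replaced by `ze - i gg - i (background)`.  The
background is `a`, except at the sites of `inn b` (the inner block without the centre) of the complete
blocks `b` of class `> m` (active or not), and at the centres of the active blocks of class `> m`,
where it is `et (cls b)`.
-/

open MeasureTheory Matrix Finset

namespace Pool.Agent.Lib.MP_562b47_mp.WO

open Pool.Agent.Lib.MP_562b47_mp.AL Pool.Agent.Lib.MP_562b47_mp

/-- the data of the gadgets -/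
structure Sys (ι 𝔅 : Type*) [DecidableEq ι] where
  /-- disorder -/
  c : ℝ
  /-- cut-off of the hidden law, support `[-5 r, 5 r]` -/
  r : ℝ
  /-- `p = κ g` -/
  κ : ℝ
  /-- the block (with port sites and centre) -/
  Q : 𝔅 → Finset ι
  /-- the port sites -/
  L : 𝔅 → Finset ι
  /-- the centre -/
  w : 𝔅 → ι
  /-- the class -/
  cls : 𝔅 → ℕ
  /-- windows `[lo, hi]` -/
  lo : 𝔅 → ι → ℝ
  hi : 𝔅 → ι → ℝ
  /-- length of the windows at the port sites -/
  lw : ℕ → ℝ
  /-- background in the inner blocks of the complete blocks -/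
  et : ℕ → ℝ
  c_pos : 0 < c
  r_pos : 0 < r
  κ_pos : 0 < κ
  κ_le : 4 * c * κ ≤ 1
  w_mem : ∀ b, w b ∈ Q b
  w_not : ∀ b, w b ∉ L b
  L_sub : ∀ b, L b ⊆ Q b
  lo_lt : ∀ b x, lo b x < hi b x
  lo_ge : ∀ b x, -c ≤ lo b x
  hi_le : ∀ b x, hi b x ≤ c
  lw_pos : ∀ m, 0 < lw m
  lw_eq : ∀ b, ∀ x ∈ L b, hi b x - lo b x = lw (cls b)
  et_pos : ∀ m, 0 < et m
  et_le : ∀ m, et m ≤ 1
  /-- complete blocks are disjoint -/
  disj : ∀ b b' (V : ι → ℝ), b ≠ b' →
    (∀ x ∈ Q b, x ≠ w b → V x ∈ Set.Icc (lo b x) (hi b x)) →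
    (∀ x ∈ Q b', x ≠ w b' → V x ∈ Set.Icc (lo b' x) (hi b' x)) → Disjoint (Q b) (Q b')

namespace Sys

variable {ι 𝔅 : Type*} [Fintype ι] [DecidableEq ι] [Fintype 𝔅] [DecidableEq 𝔅] (S : Sys ι 𝔅)

/-- the block `b` is complete -/
def comp (b : 𝔅) (V : ι → ℝ) : Prop :=
  ∀ x ∈ S.Q b, x ≠ S.w b → V x ∈ Set.Icc (S.lo b x) (S.hi b x)

open Classical in
/-- the set of complete blocks -/
noncomputable def Comp (V : ι → ℝ) : Finset 𝔅 := univ.filter fun b => S.comp b V

/-- the inner block, with the centre -/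
def qi (b : 𝔅) : Finset ι := S.Q b \ S.L b

/-- the inner block, without the centre -/
def inn (b : 𝔅) : Finset ι := (S.Q b \ S.L b).erase (S.w b)

end Sys

section green

variable {ι : Type*} [Fintype ι] [DecidableEq ι]

/-- the restriction of `A + diag V` to `T` -/
def HS (A : Matrix ι ι ℝ) (T : Finset ι) (V : ι → ℝ) : Matrix T T ℝ :=
  Matrix.of fun x y => A x y + if x = y then V x else 0

open Classical in
/-- its inverse, extended by zero -/
noncomputable def RS (A : Matrix ι ι ℝ) (T : Finset ι) (V : ι → ℝ) (x y : ι) : ℝ :=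
  if hx : x ∈ T then (if hy : y ∈ T then (HS A T V)⁻¹ ⟨x, hx⟩ ⟨y, hy⟩ else 0) else 0

end green

namespace Sys

variable {ι 𝔅 : Type*} [Fintype ι] [DecidableEq ι] [Fintype 𝔅] [DecidableEq 𝔅] (S : Sys ι 𝔅)
  (A : Matrix ι ι ℝ)

/-- the resonant value of the potential at the centre -/
noncomputable def ze (b : 𝔅) (V : ι → ℝ) : ℝ :=
  -(A (S.w b) (S.w b)) +
    ∑ y, ∑ y', A (S.w b) y * RS A (S.inn b) V y y' * A y' (S.w b)

/-- the coupling of the centre to the port site `x` -/
noncomputable def ph (b : 𝔅) (V : ι → ℝ) (x : ι) : ℝ :=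
  -∑ y, ∑ y', A (S.w b) y * RS A (S.inn b) V y y' * A y' x

/-- the strength of the absorber -/
noncomputable def gg (b : 𝔅) (V : ι → ℝ) : ℝ :=
  2 / S.lw (S.cls b) * ∑ x ∈ S.L b, S.ph A b V x ^ 2

/-- the conditional probability, given `V`, that the complete block `b` is flagged -/
noncomputable def hh (b : 𝔅) (V : ι → ℝ) : ℝ :=
  2 * S.c * (S.κ * S.gg A b V) * SL.ff (S.gg A b V) S.r (V (S.w b) - S.ze A b V)

/-- the background absorption: `et (cls b)` in the inner blocks (without the centre) of the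
complete blocks of class `> m`, `a` elsewhere -/
noncomputable def bk (m : ℕ) (a : ℝ) (V : ι → ℝ) (x : ι) : ℝ :=
  a + ∑ b ∈ (S.Comp V).filter (fun b => m < S.cls b),
    (if x ∈ S.inn b then S.et (S.cls b) - a else 0)

/-- the complex potential: `Ac` = the set of active blocks, `a` = background, `m` = current class -/
noncomputable def uA (m : ℕ) (a : ℝ) (Ac : Finset 𝔅) (V : ι → ℝ) (x : ι) : ℂ :=
  (V x : ℂ) - (S.bk m a V x : ℂ) * Complex.I +
    ∑ b ∈ Ac, (if x = S.w b then ((S.ze A b V - V x : ℝ) : ℂ) -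
      ((S.gg A b V + if m < S.cls b then S.et (S.cls b) - a else 0 : ℝ) : ℂ) * Complex.I else 0)

/-- the law of the potential -/
noncomputable def mu : Measure (ι → ℝ) := Measure.pi fun _ : ι => unif S.c

/-- probability, given `V`, that exactly the blocks of `Ac` are active -/
noncomputable def wt (p : 𝔅 → ℝ) (V : ι → ℝ) (Ac : Finset 𝔅) : ℝ :=
  (∏ b ∈ Ac, p b * S.hh A b V) * ∏ b ∈ S.Comp V \ Ac, (1 - p b * S.hh A b V)

/-- expectation in the world `(V, Ac)` -/
noncomputable def Ex (p : 𝔅 → ℝ) (F : Finset 𝔅 → (ι → ℝ) → ℝ) : ℝ :=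
  ∫ V, ∑ Ac ∈ (S.Comp V).powerset, S.wt A p V Ac * F Ac V ∂(S.mu)

/-- activation probabilities: classes `> m` are active, class `m` is thinned, classes `< m` are
absent -/
noncomputable def pim (m : ℕ) (t : ℝ) (b : 𝔅) : ℝ :=
  if S.cls b < m then 0 else if S.cls b = m then t else 1

/-- the diffusion functional of the world: class `m` thinned with probability `t`, background `a` -/
noncomputable def Dw {κ' : Type*} [Fintype κ'] (ξ : κ' → ι → ℝ) (m : ℕ) (t a : ℝ) : ℝ :=
  S.Ex A (S.pim m t) fun Ac V => DU A ξ (S.uA A m a Ac V)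

end Sys

/-- basic properties of the gadgets for a given matrix -/
structure Good {ι 𝔅 : Type*} [Fintype ι] [DecidableEq ι] [Fintype 𝔅] [DecidableEq 𝔅]
    (S : Sys ι 𝔅) (A : Matrix ι ι ℝ) : Prop where
  symm : A.IsSymm
  /-- the inner block is coupled to the exterior only through the port sites -/
  sep : ∀ b, ∀ x ∈ S.qi b, ∀ y, y ∉ S.Q b → A x y = 0
  inv : ∀ b V, S.comp b V → (HS A (S.inn b) V).det ≠ 0
  g_pos : ∀ b V, S.comp b V → 0 < S.gg A b V
  g_le : ∀ b V, S.comp b V → S.gg A b V ≤ S.r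
  ze_mem : ∀ b V, S.comp b V → |S.ze A b V| + 5 * S.r ≤ S.c

end Pool.Agent.Lib.MP_562b47_mp.WO
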