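import Pool.Agent.Lib.MP_562b47_mp.WO.Defs

/-!
MP_562b47, worlds: what depends on what.
-/

open MeasureTheory Matrix Finset

set_option linter.unusedSectionVars false

namespace Pool.Agent.Lib.MP_562b47_mp.WO

open Pool.Agent.Lib.MP_562b47_mp.AL Pool.Agent.Lib.MP_562b47_mp

variable {ι 𝔅 : Type*} [Fintype ι] [DecidableEq ι] [Fintype 𝔅] [DecidableEq 𝔅]

section green

theorem HS_congr (A : Matrix ι ι ℝ) {T : Finset ι} {V V' : ι → ℝ} (h : ∀ x ∈ T, V x = V' x) :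
    HS A T V = HS A T V' := by
  ext x y
  simp only [HS, Matrix.of_apply]
  rw [h x.1 x.2]

theorem RS_congr (A : Matrix ι ι ℝ) {T : Finset ι} {V V' : ι → ℝ} (h : ∀ x ∈ T, V x = V' x)
    (x y : ι) : RS A T V x y = RS A T V' x y := by
  unfold RS
  rw [HS_congr A h]

theorem RS_left (A : Matrix ι ι ℝ) {T : Finset ι} (V : ι → ℝ) {x : ι} (hx : x ∉ T) (y : ι) :
    RS A T V x y = 0 := by
  unfold RS
  rw [dif_neg hx]

theorem RS_right (A : Matrix ι ι ℝ) {T : Finset ι} (V : ι → ℝ) (x : ι) {y : ι} (hy : y ∉ T) :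
    RS A T V x y = 0 := by
  unfold RS
  split_ifs <;> rfl

theorem RS_of_mem (A : Matrix ι ι ℝ) {T : Finset ι} (V : ι → ℝ) {x y : ι} (hx : x ∈ T)
    (hy : y ∈ T) : RS A T V x y = (HS A T V)⁻¹ ⟨x, hx⟩ ⟨y, hy⟩ := by
  unfold RS
  rw [dif_pos hx, dif_pos hy]

theorem measurable_RS (A : Matrix ι ι ℝ) (T : Finset ι) (x y : ι) :
    Measurable fun V : ι → ℝ => RS A T V x y := by
  unfold RS
  by_cases hx : x ∈ T
  · by_cases hy : y ∈ T
    · simp only [dif_pos hx, dif_pos hy, Matrix.inv_def, Matrix.smul_apply, smul_eq_mul,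
        Ring.inverse_eq_inv']
      have hc : Continuous fun V : ι → ℝ => HS A T V := by
        apply continuous_matrix
        intro i j
        simp only [HS, Matrix.of_apply]
        by_cases hij : i = j
        · simp only [if_pos hij]; fun_prop
        · simp only [if_neg hij]; fun_prop
      apply Measurable.mul
      · exact (hc.matrix_det.measurable).inv
      · exact ((hc.matrix_adjugate.matrix_elem _ _)).measurable
    · simp only [dif_pos hx, dif_neg hy]; exact measurable_const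
  · simp only [dif_neg hx]; exact measurable_const

end green

namespace Sys

variable (S : Sys ι 𝔅) (A : Matrix ι ι ℝ)

theorem mem_Comp {b : 𝔅} {V : ι → ℝ} : b ∈ S.Comp V ↔ S.comp b V := by
  unfold Comp
  simp

theorem mem_inn {b : 𝔅} {x : ι} : x ∈ S.inn b ↔ x ≠ S.w b ∧ x ∈ S.Q b ∧ x ∉ S.L b := by
  simp [inn]

theorem mem_qi {b : 𝔅} {x : ι} : x ∈ S.qi b ↔ x ∈ S.Q b ∧ x ∉ S.L b := by
  simp [qi]

theorem w_mem_qi (b : 𝔅) : S.w b ∈ S.qi b := (S.mem_qi).mpr ⟨S.w_mem b, S.w_not b⟩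

theorem comp_congr {b : 𝔅} {V V' : ι → ℝ} (h : ∀ x ∈ S.Q b, x ≠ S.w b → V x = V' x) :
    S.comp b V ↔ S.comp b V' := by
  unfold comp
  constructor
  · intro hc x hx hxw
    rw [← h x hx hxw]; exact hc x hx hxw
  · intro hc x hx hxw
    rw [h x hx hxw]; exact hc x hx hxw

theorem Comp_disj {b b' : 𝔅} {V : ι → ℝ} (hb : b ∈ S.Comp V) (hb' : b' ∈ S.Comp V)
    (h : b ≠ b') : Disjoint (S.Q b) (S.Q b') :=
  S.disj b b' V h ((S.mem_Comp).mp hb) ((S.mem_Comp).mp hb')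

/-- changes inside a complete block which keep it complete do not change the set of complete
blocks -/
theorem Comp_eq {b : 𝔅} {V V' : ι → ℝ} (hb : b ∈ S.Comp V) (hb' : b ∈ S.Comp V')
    (h : ∀ x, x ∉ S.Q b → V' x = V x) : S.Comp V' = S.Comp V := by
  have key : ∀ (U U' : ι → ℝ), b ∈ S.Comp U → b ∈ S.Comp U' → (∀ x, x ∉ S.Q b → U' x = U x) →
      ∀ b', b' ∈ S.Comp U → b' ∈ S.Comp U' := by
    intro U U' h1 h2 h3 b' hb'
    by_cases hbb : b = b'
    · rw [← hbb]; exact h2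
    · have hd := S.Comp_disj h1 hb' hbb
      rw [S.mem_Comp] at hb' ⊢
      rw [S.comp_congr (V' := U)]
      · exact hb'
      · intro x hx _
        exact h3 x fun hxb => (Finset.disjoint_left.mp hd) hxb hx
  ext b'
  exact ⟨key V' V hb' hb (fun x hx => (h x hx).symm) b', key V V' hb hb' h b'⟩

theorem comp_update_w {b : 𝔅} {V : ι → ℝ} (v : ℝ) :
    S.comp b (Function.update V (S.w b) v) ↔ S.comp b V := by
  apply S.comp_congr
  intro x _ hx
  rw [Function.update_of_ne hx]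

theorem Comp_update_w {b : 𝔅} {V : ι → ℝ} (hb : b ∈ S.Comp V) (v : ℝ) :
    S.Comp (Function.update V (S.w b) v) = S.Comp V := by
  apply S.Comp_eq hb
  · rw [S.mem_Comp, S.comp_update_w, ← S.mem_Comp]; exact hb
  · intro x hx
    rw [Function.update_of_ne]
    rintro rfl
    exact hx (S.w_mem b)

theorem ze_congr {b : 𝔅} {V V' : ι → ℝ} (h : ∀ x ∈ S.inn b, V x = V' x) :
    S.ze A b V = S.ze A b V' := by
  unfold ze
  simp only [RS_congr A h]

theorem ph_congr {b : 𝔅} {V V' : ι → ℝ} (h : ∀ x ∈ S.inn b, V x = V' x) (x : ι) :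
    S.ph A b V x = S.ph A b V' x := by
  unfold ph
  simp only [RS_congr A h]

theorem gg_congr {b : 𝔅} {V V' : ι → ℝ} (h : ∀ x ∈ S.inn b, V x = V' x) :
    S.gg A b V = S.gg A b V' := by
  unfold gg
  simp only [S.ph_congr A h]

theorem hh_congr {b : 𝔅} {V V' : ι → ℝ} (h : ∀ x ∈ S.inn b, V x = V' x)
    (hw : V (S.w b) = V' (S.w b)) : S.hh A b V = S.hh A b V' := by
  unfold hh
  rw [S.gg_congr A h, S.ze_congr A h, hw]

theorem not_mem_of_ne {b b' : 𝔅} {V : ι → ℝ} (hb : b ∈ S.Comp V) (hb' : b' ∈ S.Comp V)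
    (h : b' ≠ b) {x : ι} (hx : x ∈ S.Q b') : x ∉ S.Q b := fun hxb =>
  (Finset.disjoint_left.mp (S.Comp_disj hb hb' h.symm)) hxb hx

theorem inn_sub {b : 𝔅} {x : ι} (hx : x ∈ S.inn b) : x ∈ S.Q b := ((S.mem_inn).mp hx).2.1

/-- `hh b'` does not see the potential in another complete block `b` -/
theorem hh_off {b b' : 𝔅} {V V' : ι → ℝ} (hb : b ∈ S.Comp V) (hb' : b' ∈ S.Comp V)
    (hne : b' ≠ b) (h : ∀ x, x ∉ S.Q b → V' x = V x) : S.hh A b' V' = S.hh A b' V := by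
  apply S.hh_congr
  · intro x hx
    exact h x (S.not_mem_of_ne hb hb' hne (S.inn_sub hx))
  · exact h _ (S.not_mem_of_ne hb hb' hne (S.w_mem b'))

theorem ze_off {b b' : 𝔅} {V V' : ι → ℝ} (hb : b ∈ S.Comp V) (hb' : b' ∈ S.Comp V)
    (hne : b' ≠ b) (h : ∀ x, x ∉ S.Q b → V' x = V x) : S.ze A b' V' = S.ze A b' V := by
  apply S.ze_congr
  intro x hx
  exact h x (S.not_mem_of_ne hb hb' hne (S.inn_sub hx))

theorem gg_off {b b' : 𝔅} {V V' : ι → ℝ} (hb : b ∈ S.Comp V) (hb' : b' ∈ S.Comp V)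
    (hne : b' ≠ b) (h : ∀ x, x ∉ S.Q b → V' x = V x) : S.gg A b' V' = S.gg A b' V := by
  apply S.gg_congr
  intro x hx
  exact h x (S.not_mem_of_ne hb hb' hne (S.inn_sub hx))

theorem ze_update_w (b : 𝔅) (V : ι → ℝ) (v : ℝ) :
    S.ze A b (Function.update V (S.w b) v) = S.ze A b V := by
  apply S.ze_congr
  intro x hx
  rw [Function.update_of_ne ((S.mem_inn).mp hx).1]

theorem gg_update_w (b : 𝔅) (V : ι → ℝ) (v : ℝ) :
    S.gg A b (Function.update V (S.w b) v) = S.gg A b V := by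
  apply S.gg_congr
  intro x hx
  rw [Function.update_of_ne ((S.mem_inn).mp hx).1]

theorem hh_update_w (b : 𝔅) (V : ι → ℝ) (v : ℝ) :
    S.hh A b (Function.update V (S.w b) v) =
      2 * S.c * (S.κ * S.gg A b V) * SL.ff (S.gg A b V) S.r (v - S.ze A b V) := by
  unfold hh
  rw [S.gg_update_w, S.ze_update_w, Function.update_self]

/-! ### the background -/

theorem bk_in {m : ℕ} {a : ℝ} {V : ι → ℝ} {b : 𝔅} (hb : b ∈ S.Comp V) (hm : m < S.cls b) {x : ι}
    (hx : x ∈ S.inn b) : S.bk m a V x = S.et (S.cls b) := by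
  unfold bk
  rw [Finset.sum_eq_single b]
  · rw [if_pos hx]; ring
  · intro b' hb' hne
    have hb2 := (mem_filter.mp hb').1
    rw [if_neg]
    intro h
    exact S.not_mem_of_ne hb2 hb (Ne.symm hne) (S.inn_sub hx) (S.inn_sub h)
  · intro h
    exact absurd (mem_filter.mpr ⟨hb, hm⟩) h

theorem bk_off {m : ℕ} {a : ℝ} {V : ι → ℝ} {x : ι}
    (h : ∀ b ∈ S.Comp V, m < S.cls b → x ∉ S.inn b) : S.bk m a V x = a := by
  unfold bk
  rw [Finset.sum_eq_zero, add_zero]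
  intro b hb
  have hb' := mem_filter.mp hb
  rw [if_neg (h b hb'.1 hb'.2)]

theorem bk_cases (m : ℕ) (a : ℝ) (V : ι → ℝ) (x : ι) :
    ((∀ b ∈ S.Comp V, m < S.cls b → x ∉ S.inn b) ∧ S.bk m a V x = a) ∨
      ∃ b ∈ S.Comp V, m < S.cls b ∧ x ∈ S.inn b ∧ S.bk m a V x = S.et (S.cls b) := by
  by_cases h : ∃ b ∈ S.Comp V, m < S.cls b ∧ x ∈ S.inn b
  · obtain ⟨b, hb, hm, hx⟩ := h
    exact Or.inr ⟨b, hb, hm, hx, S.bk_in hb hm hx⟩
  · push Not at h
    exact Or.inl ⟨h, S.bk_off h⟩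

theorem bk_pos {m : ℕ} {a : ℝ} (ha : 0 < a) (V : ι → ℝ) (x : ι) : 0 < S.bk m a V x := by
  rcases S.bk_cases m a V x with h | ⟨b, _, _, _, h⟩
  · rw [h.2]; exact ha
  · rw [h]; exact S.et_pos _

/-- in a complete block of class `≤ m` the background is `a` -/
theorem bk_low {m : ℕ} {a : ℝ} {V : ι → ℝ} {b : 𝔅} (hb : b ∈ S.Comp V) (hm : S.cls b ≤ m) {x : ι}
    (hx : x ∈ S.Q b) : S.bk m a V x = a := by
  refine S.bk_off fun b' hb' hm' hx' => ?_
  have hne : b' ≠ b := by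
    rintro rfl
    omega
  exact S.not_mem_of_ne hb hb' hne (S.inn_sub hx') hx

/-- outside the inner block (without centre) of a complete block the background is `a` -/
theorem bk_block {m : ℕ} {a : ℝ} {V : ι → ℝ} {b : 𝔅} (hb : b ∈ S.Comp V) {x : ι}
    (hx : x ∈ S.Q b) (hxi : x ∉ S.inn b) : S.bk m a V x = a := by
  refine S.bk_off fun b' hb' hm' hx' => ?_
  by_cases h : b' = b
  · rw [h] at hx'
    exact hxi hx'
  · exact S.not_mem_of_ne hb hb' h (S.inn_sub hx') hx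

theorem bk_w {m : ℕ} {a : ℝ} {V : ι → ℝ} {b : 𝔅} (hb : b ∈ S.Comp V) :
    S.bk m a V (S.w b) = a :=
  S.bk_block hb (S.w_mem b) fun h => ((S.mem_inn).mp h).1 rfl

theorem bk_L {m : ℕ} {a : ℝ} {V : ι → ℝ} {b : 𝔅} (hb : b ∈ S.Comp V) {x : ι} (hx : x ∈ S.L b) :
    S.bk m a V x = a :=
  S.bk_block hb (S.L_sub b hx) fun h => ((S.mem_inn).mp h).2.2 hx

theorem bk_congr {m : ℕ} {a : ℝ} {V V' : ι → ℝ} (h : S.Comp V = S.Comp V') :
    S.bk m a V = S.bk m a V' := by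
  funext x
  unfold bk
  rw [h]

/-- change of the class at the end of the lowering -/
theorem bk_succ (m : ℕ) (V : ι → ℝ) (x : ι) :
    S.bk m (S.et (m + 1)) V x = S.bk (m + 1) (S.et (m + 1)) V x := by
  rcases S.bk_cases (m + 1) (S.et (m + 1)) V x with h | ⟨b, hb, hm, hx, h⟩
  · rw [h.2]
    rcases S.bk_cases m (S.et (m + 1)) V x with h' | ⟨b, hb, hm, hx, h'⟩
    · exact h'.2
    · rw [h']
      have : S.cls b = m + 1 := by
        by_contra hne
        exact h.1 b hb (by omega) hx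
      rw [this]
  · rw [h, S.bk_in hb (by omega) hx]

/-! ### the values of the potential -/

variable {A}

/-- the background at the centre of an active block -/
theorem uA_w' {m : ℕ} {a : ℝ} {Ac : Finset 𝔅} {V : ι → ℝ} (hA : Ac ⊆ S.Comp V) {b : 𝔅}
    (hb : b ∈ Ac) : S.uA A m a Ac V (S.w b) =
      ((S.ze A b V : ℝ) : ℂ) - ((S.gg A b V + if m < S.cls b then S.et (S.cls b) else a : ℝ) : ℂ) *
        Complex.I := by
  unfold uA
  rw [Finset.sum_eq_single b]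
  · rw [if_pos rfl, S.bk_w (hA hb)]
    split_ifs
    · push_cast
      ring
    · push_cast
      ring
  · intro b' hb' hne
    have h1 : S.w b ∉ S.Q b' := S.not_mem_of_ne (hA hb') (hA hb) hne.symm (S.w_mem b)
    have h2 : S.w b ≠ S.w b' := fun h => h1 (by rw [h]; exact S.w_mem b')
    rw [if_neg h2]
  · intro h; exact absurd hb h

/-- active centre of class `≤ m` -/
theorem uA_w {m : ℕ} {a : ℝ} {Ac : Finset 𝔅} {V : ι → ℝ} (hA : Ac ⊆ S.Comp V) {b : 𝔅}
    (hb : b ∈ Ac) (hm : S.cls b ≤ m) : S.uA A m a Ac V (S.w b) =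
      ((S.ze A b V : ℝ) : ℂ) - ((S.gg A b V + a : ℝ) : ℂ) * Complex.I := by
  rw [S.uA_w' hA hb, if_neg (by omega)]

/-- active centre of class `> m` -/
theorem uA_w_high {m : ℕ} {a : ℝ} {Ac : Finset 𝔅} {V : ι → ℝ} (hA : Ac ⊆ S.Comp V) {b : 𝔅}
    (hb : b ∈ Ac) (hm : m < S.cls b) : S.uA A m a Ac V (S.w b) =
      ((S.ze A b V : ℝ) : ℂ) - ((S.gg A b V + S.et (S.cls b) : ℝ) : ℂ) * Complex.I := by
  rw [S.uA_w' hA hb, if_pos hm]

theorem uA_off {m : ℕ} {a : ℝ} {Ac : Finset 𝔅} {V : ι → ℝ} {x : ι} (hx : ∀ b ∈ Ac, x ≠ S.w b) :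
    S.uA A m a Ac V x = (V x : ℂ) - (S.bk m a V x : ℂ) * Complex.I := by
  unfold uA
  rw [Finset.sum_eq_zero, add_zero]
  intro b hb
  rw [if_neg (hx b hb)]

theorem ne_w {Ac : Finset 𝔅} {V : ι → ℝ} (hA : Ac ⊆ S.Comp V) {b b' : 𝔅} (hb : b ∈ Ac)
    (hb' : b' ∈ Ac) (hne : b' ≠ b) {x : ι} (hx : x ∈ S.Q b) : x ≠ S.w b' := by
  rintro rfl
  exact S.not_mem_of_ne (hA hb) (hA hb') hne (S.w_mem b') hx

theorem uA_inn {m : ℕ} {a : ℝ} {Ac : Finset 𝔅} {V : ι → ℝ} (hA : Ac ⊆ S.Comp V) {b : 𝔅}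
    (hb : b ∈ S.Comp V) {x : ι} (hx : x ∈ S.Q b) (hw : x ≠ S.w b) :
    S.uA A m a Ac V x = (V x : ℂ) - (S.bk m a V x : ℂ) * Complex.I := by
  refine S.uA_off fun b' hb' => ?_
  by_cases h : b' = b
  · rw [h]; exact hw
  · rintro rfl
    exact S.not_mem_of_ne hb (hA hb') h (S.w_mem b') hx

/-- the centre of an inactive complete block -/
theorem uA_w_off {m : ℕ} {a : ℝ} {Ac : Finset 𝔅} {V : ι → ℝ} (hA : Ac ⊆ S.Comp V) {b : 𝔅}
    (hb : b ∈ S.Comp V) (hbA : b ∉ Ac) :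
    S.uA A m a Ac V (S.w b) = (V (S.w b) : ℂ) - (a : ℂ) * Complex.I := by
  rw [S.uA_off, S.bk_w hb]
  intro b' hb' h
  have hne : b' ≠ b := by
    rintro rfl
    exact hbA hb'
  exact S.not_mem_of_ne hb (hA hb') hne (S.w_mem b') (by rw [← h]; exact S.w_mem b)

theorem uA_loss (hS : Good S A) {m : ℕ} {a : ℝ} (ha : 0 < a) {Ac : Finset 𝔅} {V : ι → ℝ}
    (hA : Ac ⊆ S.Comp V) : Loss (S.uA A m a Ac V) := by
  intro x
  have h0 := S.bk_pos (m := m) ha V x
  by_cases h : ∃ b ∈ Ac, x = S.w b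
  · obtain ⟨b, hb, rfl⟩ := h
    rw [S.uA_w' hA hb, Complex.sub_im, Complex.ofReal_im, Complex.im_ofReal_mul, Complex.I_im]
    have h1 := hS.g_pos b V ((S.mem_Comp).mp (hA hb))
    have h2 := S.et_pos (S.cls b)
    split_ifs
    · linarith
    · linarith
  · push Not at h
    rw [S.uA_off h, Complex.sub_im, Complex.ofReal_im, Complex.im_ofReal_mul, Complex.I_im]
    linarith

/-- the potential of the world does not see `V` at the centre of an active block -/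
theorem uA_update_w {m : ℕ} {a : ℝ} {Ac : Finset 𝔅} {V : ι → ℝ} (hA : Ac ⊆ S.Comp V) {b : 𝔅}
    (hb : b ∈ Ac) (v : ℝ) : S.uA A m a Ac (Function.update V (S.w b) v) = S.uA A m a Ac V := by
  have hC : S.Comp (Function.update V (S.w b) v) = S.Comp V := S.Comp_update_w (hA hb) v
  have hA' : Ac ⊆ S.Comp (Function.update V (S.w b) v) := by rw [hC]; exact hA
  have hoff : ∀ x, x ∉ S.Q b → Function.update V (S.w b) v x = V x := by
    intro x hx
    rw [Function.update_of_ne]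
    rintro rfl; exact hx (S.w_mem b)
  have hbk : S.bk m a (Function.update V (S.w b) v) = S.bk m a V := S.bk_congr hC
  funext x
  by_cases h : ∃ b' ∈ Ac, x = S.w b'
  · obtain ⟨b', hb', rfl⟩ := h
    rw [S.uA_w' hA hb', S.uA_w' hA' hb']
    by_cases hbb : b' = b
    · rw [hbb, S.ze_update_w, S.gg_update_w]
    · rw [S.ze_off A (hA hb) (hA hb') hbb hoff, S.gg_off A (hA hb) (hA hb') hbb hoff]
  · push Not at h
    rw [S.uA_off h, S.uA_off h, hbk, Function.update_of_ne (h b hb)]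

/-- deactivating the block `b` -/
theorem uA_erase {m : ℕ} {a : ℝ} {Ac : Finset 𝔅} {V : ι → ℝ} (hA : Ac ⊆ S.Comp V) {b : 𝔅}
    (hb : b ∈ Ac) :
    S.uA A m a (Ac.erase b) V = Function.update (S.uA A m a Ac V) (S.w b)
      ((V (S.w b) : ℂ) - (a : ℂ) * Complex.I) := by
  funext x
  by_cases hxw : x = S.w b
  · rw [hxw, Function.update_self,
      S.uA_w_off ((erase_subset _ _).trans hA) (hA hb) (notMem_erase _ _)]
  · rw [Function.update_of_ne hxw]
    unfold uA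
    rw [← Finset.add_sum_erase Ac _ hb, if_neg hxw, zero_add]

end Sys

end Pool.Agent.Lib.MP_562b47_mp.WO
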