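import Pool.Agent.Lib.MP_562b47_mp.WO.Basic
import Pool.Agent.Lib.MP_562b47_mp.AL.Int
import Pool.Agent.Lib.MP_562b47_mp.AL.Trade

/-!
MP_562b47, worlds: weights, measurability, boundedness.
-/

open MeasureTheory Matrix Finset

set_option linter.unusedSectionVars false

namespace Pool.Agent.Lib.MP_562b47_mp.WO

open Pool.Agent.Lib.MP_562b47_mp.AL Pool.Agent.Lib.MP_562b47_mp

variable {ι 𝔅 : Type*} [Fintype ι] [DecidableEq ι] [Fintype 𝔅] [DecidableEq 𝔅]

namespace Sys

variable (S : Sys ι 𝔅) (A : Matrix ι ι ℝ)

theorem measurable_ze (b : 𝔅) : Measurable (S.ze A b) := by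
  unfold ze
  exact measurable_const.add (Finset.measurable_sum _ fun y _ => Finset.measurable_sum _ fun y' _ =>
    ((measurable_RS A (S.inn b) y y').const_mul _).mul_const _)

theorem measurable_ph (b : 𝔅) (x : ι) : Measurable fun V : ι → ℝ => S.ph A b V x := by
  unfold ph
  exact (Finset.measurable_sum _ fun y _ => Finset.measurable_sum _ fun y' _ =>
    ((measurable_RS A (S.inn b) y y').const_mul _).mul_const _).neg

theorem measurable_gg (b : 𝔅) : Measurable (S.gg A b) := by
  unfold gg
  exact (Finset.measurable_sum _ fun x _ => (S.measurable_ph A b x).pow_const 2).const_mul _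

theorem measurable_ff2 (r : ℝ) : Measurable fun p : ℝ × ℝ => SL.ff p.1 r p.2 := by
  unfold SL.ff SL.rr SL.R0 SL.cw SL.cd
  fun_prop

theorem measurable_hh (b : 𝔅) : Measurable (S.hh A b) := by
  unfold hh
  apply Measurable.mul
  · exact ((S.measurable_gg A b).const_mul _).const_mul _
  · have h1 : Measurable fun V : ι → ℝ => (S.gg A b V, V (S.w b) - S.ze A b V) :=
      (S.measurable_gg A b).prodMk ((measurable_pi_apply _).sub (S.measurable_ze A b))
    exact (measurable_ff2 S.r).comp h1

theorem measurableSet_comp (b : 𝔅) : MeasurableSet {V : ι → ℝ | S.comp b V} := by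
  have : {V : ι → ℝ | S.comp b V} =
      ⋂ x : ι, {V : ι → ℝ | x ∈ S.Q b → x ≠ S.w b → V x ∈ Set.Icc (S.lo b x) (S.hi b x)} := by
    ext V
    simp [comp, Set.mem_iInter]
  rw [this]
  apply MeasurableSet.iInter
  intro x
  by_cases h1 : x ∈ S.Q b
  · by_cases h2 : x = S.w b
    · simp [h2]
    · have : {V : ι → ℝ | x ∈ S.Q b → x ≠ S.w b → V x ∈ Set.Icc (S.lo b x) (S.hi b x)} =
          (fun V : ι → ℝ => V x) ⁻¹' Set.Icc (S.lo b x) (S.hi b x) := by
        ext V; simp [h1, h2]
      rw [this]
      exact (measurable_pi_apply x) measurableSet_Icc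
  · simp [h1]

/-- the event that the set of complete blocks is `B` -/
theorem measurableSet_Comp (B : Finset 𝔅) : MeasurableSet {V : ι → ℝ | S.Comp V = B} := by
  have : {V : ι → ℝ | S.Comp V = B} =
      ⋂ b : 𝔅, {V : ι → ℝ | S.comp b V ↔ b ∈ B} := by
    ext V
    simp only [Set.mem_ofPred_eq, Set.mem_iInter]
    constructor
    · intro h b
      rw [← h, S.mem_Comp]
    · intro h
      ext b
      rw [S.mem_Comp]
      exact h b
  rw [this]
  apply MeasurableSet.iInter
  intro b
  by_cases hb : b ∈ B
  · simp only [hb, iff_true]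
    exact S.measurableSet_comp b
  · simp only [hb, iff_false]
    exact (S.measurableSet_comp b).compl

/-- functions of `V` and of the set of complete blocks -/
theorem measurable_of_Comp {F : Finset 𝔅 → (ι → ℝ) → ℝ} (hF : ∀ B, Measurable (F B)) :
    Measurable fun V : ι → ℝ => F (S.Comp V) V := by
  have : (fun V : ι → ℝ => F (S.Comp V) V) =
      fun V => ∑ B : Finset 𝔅, Set.indicator {V : ι → ℝ | S.Comp V = B} (F B) V := by
    funext V
    rw [Finset.sum_eq_single (S.Comp V)]
    · rw [Set.indicator_of_mem]; rfl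
    · intro B _ hB
      rw [Set.indicator_of_notMem]
      exact fun h => hB h.symm
    · intro h; exact absurd (mem_univ _) h
  rw [this]
  exact Finset.measurable_sum _ fun B _ => (hF B).indicator (S.measurableSet_Comp B)

theorem measurable_wt (p : 𝔅 → ℝ) (Ac : Finset 𝔅) :
    Measurable fun V : ι → ℝ => S.wt A p V Ac := by
  unfold wt
  apply Measurable.mul
  · exact Finset.measurable_prod _ fun b _ => (S.measurable_hh A b).const_mul _
  · exact S.measurable_of_Comp
      (F := fun B V => ∏ b ∈ B \ Ac, (1 - p b * S.hh A b V))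
      fun B => Finset.measurable_prod _ fun b _ =>
        measurable_const.sub ((S.measurable_hh A b).const_mul _)

theorem measurable_bk (m : ℕ) (a : ℝ) (x : ι) :
    Measurable fun V : ι → ℝ => S.bk m a V x := by
  unfold bk
  exact S.measurable_of_Comp (F := fun B _ => a + ∑ b ∈ B.filter (fun b => m < S.cls b),
    (if x ∈ S.inn b then S.et (S.cls b) - a else 0)) fun B => measurable_const

theorem measurable_uA (m : ℕ) (a : ℝ) (Ac : Finset 𝔅) (x : ι) :
    Measurable fun V : ι → ℝ => S.uA A m a Ac V x := by
  unfold uA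
  apply Measurable.add
  · exact (Complex.measurable_ofReal.comp (measurable_pi_apply x)).sub
      ((Complex.measurable_ofReal.comp (S.measurable_bk m a x)).mul_const _)
  · refine Finset.measurable_fun_sum _ fun b _ => ?_
    by_cases h : x = S.w b
    · simp only [if_pos h]
      exact (Complex.measurable_ofReal.comp
        ((S.measurable_ze A b).sub (measurable_pi_apply x))).sub
        ((Complex.measurable_ofReal.comp ((S.measurable_gg A b).add_const _)).mul_const _)
    · simp only [if_neg h]; exact measurable_const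

end Sys

section meas

variable {A : Matrix ι ι ℝ}

theorem share_le_DU {κ' : Type*} [Fintype κ'] (ξ : κ' → ι → ℝ) {u : ι → ℂ}
    (hu : Loss u) (s : ι) : share A ξ u s ≤ 2 * DU A ξ u := by
  rw [← sum_share]
  exact Finset.single_le_sum (f := fun s => share A ξ u s)
    (fun s _ => share_nonneg ξ hu s) (mem_univ s)

end meas

end Pool.Agent.Lib.MP_562b47_mp.WO
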