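import Pool.Agent.Lib.MP_562b47_mp.WO.Weights
import Pool.Agent.Lib.MP_562b47_mp.TH.Russo

/-!
MP_562b47, worlds: flags.  First every complete block is flagged with probability `hh`, then the
flagged blocks of class `m` are active with probability `t`.
-/

open MeasureTheory Matrix Finset

set_option linter.unusedSectionVars false

namespace Pool.Agent.Lib.MP_562b47_mp.WO

open Pool.Agent.Lib.MP_562b47_mp.AL Pool.Agent.Lib.MP_562b47_mp

variable {ι 𝔅 : Type*} [Fintype ι] [DecidableEq ι] [Fintype 𝔅] [DecidableEq 𝔅]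

/-- thinning identity, general form -/
theorem thin_id (C : Finset 𝔅) (h p : 𝔅 → ℝ) (F : Finset 𝔅 → ℝ) :
    ∑ Ac ∈ C.powerset, ((∏ b ∈ Ac, p b * h b) * ∏ b ∈ C \ Ac, (1 - p b * h b)) * F Ac =
      ∑ B ∈ C.powerset, ((∏ b ∈ B, h b) * ∏ b ∈ C \ B, (1 - h b)) *
        ∑ Ac ∈ B.powerset, ((∏ b ∈ Ac, p b) * ∏ b ∈ B \ Ac, (1 - p b)) * F Ac := by
  have h1 : ∀ Ac ∈ C.powerset, ((∏ b ∈ Ac, p b * h b) * ∏ b ∈ C \ Ac, (1 - p b * h b)) * F Ac =
      ∑ T ∈ (C \ Ac).powerset, (∏ b ∈ Ac, p b * h b) * ((∏ b ∈ T, (1 - p b) * h b) *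
        ∏ b ∈ (C \ Ac) \ T, (1 - h b)) * F Ac := by
    intro Ac _
    rw [← Finset.sum_mul, ← Finset.mul_sum, ← Finset.prod_add]
    congr 3
    funext b
    ring
  rw [Finset.sum_congr rfl h1]
  have h2 : ∀ B ∈ C.powerset, ((∏ b ∈ B, h b) * ∏ b ∈ C \ B, (1 - h b)) *
        ∑ Ac ∈ B.powerset, ((∏ b ∈ Ac, p b) * ∏ b ∈ B \ Ac, (1 - p b)) * F Ac =
      ∑ Ac ∈ B.powerset, ((∏ b ∈ B, h b) * ∏ b ∈ C \ B, (1 - h b)) *
        (((∏ b ∈ Ac, p b) * ∏ b ∈ B \ Ac, (1 - p b)) * F Ac) := by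
    intro B _
    rw [Finset.mul_sum]
  rw [Finset.sum_congr rfl h2, sum_sigma', sum_sigma']
  refine sum_bij' (fun x _ => (⟨x.1 ∪ x.2, x.1⟩ : Sigma fun _ : Finset 𝔅 => Finset 𝔅))
    (fun x _ => (⟨x.2, x.1 \ x.2⟩ : Sigma fun _ : Finset 𝔅 => Finset 𝔅)) ?_ ?_ ?_ ?_ ?_
  · rintro ⟨Ac, T⟩ hx
    simp only [mem_sigma, mem_powerset] at hx ⊢
    exact ⟨union_subset hx.1 (hx.2.trans sdiff_subset), subset_union_left⟩
  · rintro ⟨B, Ac⟩ hx
    simp only [mem_sigma, mem_powerset] at hx ⊢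
    exact ⟨hx.2.trans hx.1, sdiff_subset_sdiff hx.1 (subset_refl _)⟩
  · rintro ⟨Ac, T⟩ hx
    simp only [mem_sigma, mem_powerset] at hx
    simp only [Sigma.mk.injEq, heq_eq_eq, true_and]
    rw [union_sdiff_left]
    exact sdiff_eq_self_of_disjoint (disjoint_of_subset_left hx.2 sdiff_disjoint)
  · rintro ⟨B, Ac⟩ hx
    simp only [mem_sigma, mem_powerset] at hx
    simp [union_sdiff_of_subset hx.2]
  · rintro ⟨Ac, T⟩ hx
    simp only [mem_sigma, mem_powerset] at hx
    have hd : Disjoint Ac T := disjoint_of_subset_right hx.2 disjoint_sdiff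
    have e1 : (Ac ∪ T) \ Ac = T := by
      rw [union_sdiff_left]
      exact sdiff_eq_self_of_disjoint hd.symm
    have e2 : C \ (Ac ∪ T) = (C \ Ac) \ T := by
      rw [sdiff_sdiff_left]; rfl
    simp only
    rw [e1, e2, prod_union hd, prod_mul_distrib, prod_mul_distrib]
    ring

namespace Sys

variable (S : Sys ι 𝔅) {A : Matrix ι ι ℝ}

/-- the blocks of class `m` -/
def cm (m : ℕ) (B : Finset 𝔅) : Finset 𝔅 := B.filter fun b => S.cls b = m

/-- the blocks of larger class -/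
def cg (m : ℕ) (B : Finset 𝔅) : Finset 𝔅 := B.filter fun b => m < S.cls b

theorem mem_cm {m : ℕ} {B : Finset 𝔅} {b : 𝔅} : b ∈ S.cm m B ↔ b ∈ B ∧ S.cls b = m := by
  simp [cm]

theorem mem_cg {m : ℕ} {B : Finset 𝔅} {b : 𝔅} : b ∈ S.cg m B ↔ b ∈ B ∧ m < S.cls b := by
  simp [cg]

theorem cm_sub (m : ℕ) (B : Finset 𝔅) : S.cm m B ⊆ B := filter_subset _ _

theorem cg_sub (m : ℕ) (B : Finset 𝔅) : S.cg m B ⊆ B := filter_subset _ _

theorem sum_pim (m : ℕ) (t : ℝ) (B : Finset 𝔅) (F : Finset 𝔅 → ℝ) :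
    ∑ Ac ∈ B.powerset, ((∏ b ∈ Ac, S.pim m t b) * ∏ b ∈ B \ Ac, (1 - S.pim m t b)) * F Ac =
      ∑ A' ∈ (S.cm m B).powerset, TH.wgt t A' (S.cm m B) * F (A' ∪ S.cg m B) := by
  symm
  have hdisj : ∀ A' ∈ (S.cm m B).powerset, Disjoint A' (S.cg m B) := by
    intro A' hA
    rw [Finset.disjoint_left]
    intro b hb hb'
    have h1 := ((S.mem_cm).mp ((mem_powerset.mp hA) hb)).2
    have h2 := ((S.mem_cg).mp hb').2
    omega
  have hinj : Set.InjOn (fun A' => A' ∪ S.cg m B) ((S.cm m B).powerset : Set (Finset 𝔅)) := by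
    intro A1 h1 A2 h2 h
    simp only at h
    have e : ∀ A' ∈ (S.cm m B).powerset, (A' ∪ S.cg m B) \ S.cg m B = A' := fun A' hA => by
      rw [union_sdiff_right]
      exact sdiff_eq_self_of_disjoint (hdisj A' hA)
    rw [← e A1 (mem_coe.mp h1), ← e A2 (mem_coe.mp h2), h]
  have hsum := Finset.sum_image (f := fun Ac => ((∏ b ∈ Ac, S.pim m t b) *
    ∏ b ∈ B \ Ac, (1 - S.pim m t b)) * F Ac) hinj
  have hterm : ∀ A' ∈ (S.cm m B).powerset, TH.wgt t A' (S.cm m B) * F (A' ∪ S.cg m B) =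
      ((∏ b ∈ A' ∪ S.cg m B, S.pim m t b) *
        ∏ b ∈ B \ (A' ∪ S.cg m B), (1 - S.pim m t b)) * F (A' ∪ S.cg m B) := by
    intro A' hA
    congr 1
    have hAm := mem_powerset.mp hA
    have e1 : ∏ b ∈ A' ∪ S.cg m B, S.pim m t b = t ^ A'.card := by
      rw [prod_union (hdisj A' hA)]
      have h1 : ∏ b ∈ A', S.pim m t b = t ^ A'.card := by
        rw [← prod_const]
        refine prod_congr rfl fun b hb => ?_
        have h2 := ((S.mem_cm).mp (hAm hb)).2
        unfold pim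
        rw [if_neg (by omega), if_pos h2]
      have h2 : ∏ b ∈ S.cg m B, S.pim m t b = 1 := by
        refine prod_eq_one fun b hb => ?_
        have h2 := ((S.mem_cg).mp hb).2
        unfold pim
        rw [if_neg (by omega), if_neg (by omega)]
      rw [h1, h2, mul_one]
    have e2 : ∏ b ∈ B \ (A' ∪ S.cg m B), (1 - S.pim m t b) = (1 - t) ^ (S.cm m B \ A').card := by
      have h1 : S.cm m B \ A' ⊆ B \ (A' ∪ S.cg m B) := by
        intro b hb
        rw [mem_sdiff] at hb ⊢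
        have hb1 := (S.mem_cm).mp hb.1
        refine ⟨hb1.1, fun h => ?_⟩
        rcases mem_union.mp h with h | h
        · exact hb.2 h
        · have := ((S.mem_cg).mp h).2
          omega
      rw [← prod_subset h1]
      · rw [← prod_const]
        refine prod_congr rfl fun b hb => ?_
        have h2 := ((S.mem_cm).mp (mem_sdiff.mp hb).1).2
        unfold pim
        rw [if_neg (by omega), if_pos h2]
      · intro b hb hb'
        rw [mem_sdiff] at hb hb'
        have h3 : S.cls b ≠ m := fun h => by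
          refine hb' ⟨(S.mem_cm).mpr ⟨hb.1, h⟩, fun h4 => hb.2 (mem_union_left _ h4)⟩
        have h4 : ¬ m < S.cls b := fun h => hb.2 (mem_union_right _ ((S.mem_cg).mpr ⟨hb.1, h⟩))
        unfold pim
        rw [if_pos (by omega), sub_zero]
    rw [e1, e2]
    rfl
  rw [Finset.sum_congr rfl hterm, ← hsum]
  refine sum_subset ?_ ?_
  · intro Ac hAc
    obtain ⟨A', hA, rfl⟩ := mem_image.mp hAc
    rw [mem_powerset]
    exact union_subset ((mem_powerset.mp hA).trans (S.cm_sub m B)) (S.cg_sub m B)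
  · intro Ac hAc hn
    have hAB := mem_powerset.mp hAc
    have h0 : (∏ b ∈ Ac, S.pim m t b) * ∏ b ∈ B \ Ac, (1 - S.pim m t b) = 0 := by
      by_cases h1 : ∃ b ∈ Ac, S.cls b < m
      · obtain ⟨b, hb, hlt⟩ := h1
        rw [prod_eq_zero hb, zero_mul]
        unfold pim
        rw [if_pos hlt]
      · by_cases h2 : ∃ b ∈ B \ Ac, m < S.cls b
        · obtain ⟨b, hb, hlt⟩ := h2
          rw [prod_eq_zero hb, mul_zero]
          unfold pim
          rw [if_neg (by omega), if_neg (by omega), sub_self]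
        · exfalso
          push Not at h1 h2
          apply hn
          rw [mem_image]
          refine ⟨S.cm m Ac, ?_, ?_⟩
          · rw [mem_powerset]
            intro b hb
            have := (S.mem_cm).mp hb
            exact (S.mem_cm).mpr ⟨hAB this.1, this.2⟩
          · ext b
            rw [mem_union, S.mem_cm, S.mem_cg]
            constructor
            · rintro (h | h)
              · exact h.1
              · by_contra hb
                have := h2 b (mem_sdiff.mpr ⟨h.1, hb⟩)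
                omega
            · intro hb
              have := h1 b hb
              rcases Nat.lt_or_ge m (S.cls b) with h | h
              · exact Or.inr ⟨hAB hb, h⟩
              · exact Or.inl ⟨hb, by omega⟩
    rw [h0, zero_mul]

/-- thinning the flags, pointwise -/
theorem Ei_thin (m : ℕ) (t : ℝ) (F : Finset 𝔅 → (ι → ℝ) → ℝ) (V : ι → ℝ) :
    S.Ei A (S.pim m t) F V = S.Ei A (fun _ => 1)
      (fun B V => ∑ A' ∈ (S.cm m B).powerset, TH.wgt t A' (S.cm m B) * F (A' ∪ S.cg m B) V) V := by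
  unfold Ei wt
  rw [thin_id (S.Comp V) (fun b => S.hh A b V) (S.pim m t) (fun Ac => F Ac V)]
  refine Finset.sum_congr rfl fun B _ => ?_
  rw [S.sum_pim m t B (fun Ac => F Ac V)]
  simp only [one_mul]

/-- expectation of `F`, the flagged blocks of class `m` being `B`, the active ones `A'` -/
noncomputable def cfl (A : Matrix ι ι ℝ) (m : ℕ) (F : Finset 𝔅 → (ι → ℝ) → ℝ)
    (A' B : Finset 𝔅) : ℝ :=
  S.Ex A (fun _ => 1) fun Bf V => if S.cm m Bf = B then F (A' ∪ S.cg m Bf) V else 0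

theorem adm_one : Adm (fun _ : 𝔅 => (1 : ℝ)) := fun _ => ⟨zero_le_one, le_refl _⟩

theorem bdd_cfl {F : Finset 𝔅 → (ι → ℝ) → ℝ} (hF : Bdd S F) (m : ℕ) {A' B : Finset 𝔅}
    (hA : A' ⊆ B) :
    Bdd S fun Bf V => if S.cm m Bf = B then F (A' ∪ S.cg m Bf) V else 0 := by
  obtain ⟨C, hC⟩ := hF.bdd
  refine ⟨fun Bf => ?_, |C|, fun V Bf hBf => ?_⟩
  · by_cases h : S.cm m Bf = B
    · simp only [if_pos h]; exact hF.meas _
    · simp only [if_neg h]; exact measurable_const
  · by_cases h : S.cm m Bf = B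
    · simp only [if_pos h]
      refine (hC V _ ?_).trans (le_abs_self C)
      refine union_subset ?_ ((S.cg_sub m Bf).trans hBf)
      exact hA.trans (by rw [← h]; exact (S.cm_sub m Bf).trans hBf)
    · simp only [if_neg h, abs_zero]; exact abs_nonneg _

/-- the thinned world in terms of the flags -/
theorem Ex_thin (hS : Good S A) (m : ℕ) (t : ℝ) {F : Finset 𝔅 → (ι → ℝ) → ℝ} (hF : Bdd S F) :
    S.Ex A (S.pim m t) F = TH.Dp (S.cfl A m F) t := by
  have h1 : S.Ex A (S.pim m t) F = S.Ex A (fun _ => 1) (fun Bf V => ∑ B : Finset 𝔅,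
      ∑ A' ∈ B.powerset, TH.wgt t A' B *
        (if S.cm m Bf = B then F (A' ∪ S.cg m Bf) V else 0)) := by
    rw [Ex_eq, Ex_eq]
    refine integral_congr_ae (Filter.Eventually.of_forall fun V => ?_)
    rw [S.Ei_thin]
    refine S.Ei_congr fun Bf _ => ?_
    symm
    rw [Finset.sum_eq_single (S.cm m Bf)]
    · exact Finset.sum_congr rfl fun A' _ => by rw [if_pos rfl]
    · intro B _ hB
      refine Finset.sum_eq_zero fun A' _ => ?_
      rw [if_neg (fun h => hB h.symm), mul_zero]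
    · intro h; exact absurd (mem_univ _) h
  rw [h1]
  rw [S.Ex_sum hS adm_one univ (fun B Bf V => ∑ A' ∈ B.powerset, TH.wgt t A' B *
        (if S.cm m Bf = B then F (A' ∪ S.cg m Bf) V else 0))]
  · unfold TH.Dp
    refine Finset.sum_congr rfl fun B _ => ?_
    rw [S.Ex_sum hS adm_one B.powerset (fun A' Bf V => TH.wgt t A' B *
        (if S.cm m Bf = B then F (A' ∪ S.cg m Bf) V else 0))]
    · refine Finset.sum_congr rfl fun A' _ => ?_
      rw [S.Ex_mul]
      rfl
    · intro A' hA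
      exact (S.bdd_cfl hF m (mem_powerset.mp hA)).mul_const S _
  · intro B _
    refine Bdd.sum S _ fun A' hA => ?_
    exact (S.bdd_cfl hF m (mem_powerset.mp hA)).mul_const S _

/-- sums over the active blocks of class `m` -/
theorem Ex_thin_sum (hS : Good S A) (m : ℕ) (t : ℝ) {G : 𝔅 → Finset 𝔅 → (ι → ℝ) → ℝ}
    (hG : ∀ b, Bdd S fun Ac V => if b ∈ S.cm m Ac then G b Ac V else 0) :
    S.Ex A (S.pim m t) (fun Ac V => ∑ b ∈ S.cm m Ac, G b Ac V) =
      TH.Sp (fun b A' B => S.cfl A m (fun Ac V => if b ∈ S.cm m Ac then G b Ac V else 0) A' B)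
        t := by
  have e0 : (fun (Ac : Finset 𝔅) (V : ι → ℝ) => ∑ b ∈ S.cm m Ac, G b Ac V) =
      fun Ac V => ∑ b : 𝔅, (if b ∈ S.cm m Ac then G b Ac V else 0) := by
    funext Ac V
    rw [Finset.sum_ite_mem, Finset.univ_inter]
  have hb : Bdd S fun Ac V => ∑ b : 𝔅, (if b ∈ S.cm m Ac then G b Ac V else 0) :=
    Bdd.sum S _ fun b _ => hG b
  rw [e0, S.Ex_thin hS m t hb]
  unfold TH.Dp TH.Sp
  refine Finset.sum_congr rfl fun B _ => Finset.sum_congr rfl fun A' hA => ?_
  have hA' := mem_powerset.mp hA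
  congr 1
  have e1 : S.cfl A m (fun Ac V => ∑ b : 𝔅, (if b ∈ S.cm m Ac then G b Ac V else 0)) A' B =
      ∑ b : 𝔅, S.cfl A m (fun Ac V => if b ∈ S.cm m Ac then G b Ac V else 0) A' B := by
    unfold cfl
    rw [← S.Ex_sum hS adm_one univ (fun b Bf V => if S.cm m Bf = B then
      (if b ∈ S.cm m (A' ∪ S.cg m Bf) then G b (A' ∪ S.cg m Bf) V else 0) else 0)]
    · congr 1
      funext Bf V
      by_cases h : S.cm m Bf = B
      · simp only [if_pos h]
      · simp only [if_neg h, Finset.sum_const_zero]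
    · intro b _
      exact S.bdd_cfl (F := fun Ac V => if b ∈ S.cm m Ac then G b Ac V else 0) (hG b) m hA'
  rw [e1]
  symm
  refine sum_subset (subset_univ _) ?_
  intro b _ hbA
  have hz : (fun (Bf : Finset 𝔅) (V : ι → ℝ) => if S.cm m Bf = B then
      (if b ∈ S.cm m (A' ∪ S.cg m Bf) then G b (A' ∪ S.cg m Bf) V else 0) else 0) =
      fun _ _ => (0 : ℝ) := by
    funext Bf V
    by_cases h : S.cm m Bf = B
    · rw [if_pos h, if_neg]
      intro h2
      have h3 := (S.mem_cm).mp h2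
      rcases mem_union.mp h3.1 with h4 | h4
      · exact hbA h4
      · have := ((S.mem_cg).mp h4).2
        omega
    · rw [if_neg h]
  have hz2 : S.cfl A m (fun Ac V => if b ∈ S.cm m Ac then G b Ac V else 0) A' B =
      S.Ex A (fun _ => 1) (fun (Bf : Finset 𝔅) (V : ι → ℝ) => if S.cm m Bf = B then
      (if b ∈ S.cm m (A' ∪ S.cg m Bf) then G b (A' ∪ S.cg m Bf) V else 0) else 0) := rfl
  exact hz2.trans (by rw [hz, S.Ex_const])

end Sys

end Pool.Agent.Lib.MP_562b47_mp.WO
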