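import Pool.Agent.Lib.MP_562b47_mp.WO.Coord
import Pool.Agent.Lib.MP_562b47_mp.WO.Flags

/-!
MP_562b47, worlds: the cost of one trade.
-/

open MeasureTheory Matrix Finset

set_option linter.unusedSectionVars false

namespace Pool.Agent.Lib.MP_562b47_mp.WO

open Pool.Agent.Lib.MP_562b47_mp.AL Pool.Agent.Lib.MP_562b47_mp

variable {ι 𝔅 : Type*} [Fintype ι] [DecidableEq ι] [Fintype 𝔅] [DecidableEq 𝔅]

namespace Sys

variable (S : Sys ι 𝔅) {A : Matrix ι ι ℝ} {p : 𝔅 → ℝ} {V : ι → ℝ} {Ac : Finset 𝔅} {b : 𝔅}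

/-- the contribution of the set `Ac` to `Ei` -/
noncomputable def E1 (A : Matrix ι ι ℝ) (p : 𝔅 → ℝ) (F : Finset 𝔅 → (ι → ℝ) → ℝ)
    (Ac : Finset 𝔅) (V : ι → ℝ) : ℝ :=
  if Ac ⊆ S.Comp V then S.wt A p V Ac * F Ac V else 0

theorem Ei_eq_sum (A : Matrix ι ι ℝ) (p : 𝔅 → ℝ) (F : Finset 𝔅 → (ι → ℝ) → ℝ) (V : ι → ℝ) :
    S.Ei A p F V = ∑ Ac, S.E1 A p F Ac V := by
  unfold Ei E1
  rw [← Finset.sum_filter]
  refine Finset.sum_congr ?_ fun _ _ => rfl
  ext Ac
  simp

theorem measurable_E1 {F : Finset 𝔅 → (ι → ℝ) → ℝ} (hF : ∀ Ac, Measurable (F Ac))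
    (Ac : Finset 𝔅) : Measurable (S.E1 A p F Ac) := by
  unfold E1
  refine S.measurable_of_Comp (F := fun B V => if Ac ⊆ B then S.wt A p V Ac * F Ac V else 0)
    fun B => ?_
  by_cases h : Ac ⊆ B
  · simp only [if_pos h]; exact (S.measurable_wt A p Ac).mul (hF Ac)
  · simp only [if_neg h]; exact measurable_const

theorem integrable_E1 (hS : Good S A) (hp : Adm p) {F : Finset 𝔅 → (ι → ℝ) → ℝ}
    (hF : Bdd S F) (Ac : Finset 𝔅) : Integrable (S.E1 A p F Ac) S.mu := by
  obtain ⟨C, hC⟩ := hF.bdd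
  refine Integrable.of_bound (S.measurable_E1 hF.meas Ac).aestronglyMeasurable |C|
    (Filter.Eventually.of_forall fun V => ?_)
  rw [Real.norm_eq_abs]
  unfold E1
  split_ifs with h
  · rw [abs_mul, abs_of_nonneg (S.wt_nonneg hS hp h)]
    calc S.wt A p V Ac * |F Ac V| ≤ 1 * |C| :=
          mul_le_mul (S.wt_le_one hS hp h) ((hC V Ac h).trans (le_abs_self C)) (abs_nonneg _)
            zero_le_one
      _ = |C| := one_mul _
  · rw [abs_zero]; exact abs_nonneg _

theorem Ex_eq_sum (hS : Good S A) (hp : Adm p) {F : Finset 𝔅 → (ι → ℝ) → ℝ}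
    (hF : Bdd S F) : S.Ex A p F = ∑ Ac, ∫ V, S.E1 A p F Ac V ∂(S.mu) := by
  rw [Ex_eq, ← integral_finsetSum univ fun Ac _ => S.integrable_E1 hS hp hF Ac]
  exact integral_congr_ae (Filter.Eventually.of_forall fun V => S.Ei_eq_sum A p F V)

theorem mu_eq : S.mu = muc ι S.c := rfl

/-- the weight as a function of the potential at the centre of an active block -/
theorem wt_update_w (hA : Ac ⊆ S.Comp V) (hb : b ∈ Ac) (v : ℝ) :
    S.wt A p (Function.update V (S.w b) v) Ac =
      (p b * ((∏ b' ∈ Ac.erase b, p b' * S.hh A b' V) *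
        ∏ b' ∈ S.Comp V \ Ac, (1 - p b' * S.hh A b' V))) *
      S.hh A b (Function.update V (S.w b) v) := by
  have hbC := hA hb
  have hoff : ∀ x, x ∉ S.Q b → Function.update V (S.w b) v x = V x := by
    intro x hx
    rw [Function.update_of_ne]
    rintro rfl; exact hx (S.w_mem b)
  unfold wt
  rw [S.Comp_update_w hbC, ← Finset.mul_prod_erase Ac _ hb]
  have h1 : ∏ x ∈ Ac.erase b, p x * S.hh A x (Function.update V (S.w b) v) =
      ∏ b' ∈ Ac.erase b, p b' * S.hh A b' V := by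
    refine Finset.prod_congr rfl fun b' hb' => ?_
    rw [mem_erase] at hb'
    rw [S.hh_off A hbC (hA hb'.2) hb'.1 hoff]
  have h2 : ∏ b' ∈ S.Comp V \ Ac, (1 - p b' * S.hh A b' (Function.update V (S.w b) v)) =
      ∏ b' ∈ S.Comp V \ Ac, (1 - p b' * S.hh A b' V) := by
    refine Finset.prod_congr rfl fun b' hb' => ?_
    rw [mem_sdiff] at hb'
    rw [S.hh_off A hbC hb'.1 (by rintro rfl; exact hb'.2 hb) hoff]
  rw [h1, h2]
  ring

/-- comparison of expectations, the potential at the centre of the active block `b` being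
integrated first -/
theorem Ex_le_of_w (hS : Good S A) (hp : Adm p) {F F' : Finset 𝔅 → (ι → ℝ) → ℝ}
    (hF : Bdd S F) (hF' : Bdd S F') (b : 𝔅)
    (h0 : ∀ V, ∀ Ac ⊆ S.Comp V, b ∉ Ac → F Ac V ≤ F' Ac V)
    (h1 : ∀ V, ∀ Ac ⊆ S.Comp V, b ∈ Ac →
      ∫ v, F Ac (Function.update V (S.w b) (S.ze A b V + v)) ∂(SL.nuM (S.gg A b V) S.r) ≤
      ∫ v, F' Ac (Function.update V (S.w b) (S.ze A b V + v)) ∂(SL.nuM (S.gg A b V) S.r)) :
    S.Ex A p F ≤ S.Ex A p F' := by
  rw [S.Ex_eq_sum hS hp hF, S.Ex_eq_sum hS hp hF']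
  refine Finset.sum_le_sum fun Ac _ => ?_
  by_cases hb : b ∈ Ac
  · rw [mu_eq]
    refine integral_le_of_upd S.c_pos (S.w b) (S.integrable_E1 hS hp hF Ac)
      (S.integrable_E1 hS hp hF' Ac) fun V => ?_
    by_cases hA : Ac ⊆ S.Comp V
    · have hbC := hA hb
      have hc := (S.mem_Comp).mp hbC
      set K : ℝ := p b * ((∏ b' ∈ Ac.erase b, p b' * S.hh A b' V) *
        ∏ b' ∈ S.Comp V \ Ac, (1 - p b' * S.hh A b' V)) with hK
      have hK0 : 0 ≤ K := by
        refine mul_nonneg (hp b).1 (mul_nonneg ?_ ?_)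
        · exact Finset.prod_nonneg fun b' hb' => mul_nonneg (hp b').1
            (S.hh_nonneg hS (hA (mem_erase.mp hb').2))
        · refine Finset.prod_nonneg fun b' hb' => ?_
          have hb2 : b' ∈ S.Comp V := (Finset.mem_sdiff.mp hb').1
          have h1 := S.hh_nonneg hS hb2
          have h2 := S.hh_le hS hb2
          have h3 : p b' * S.hh A b' V ≤ 1 * S.hh A b' V := mul_le_mul_of_nonneg_right (hp b').2 h1
          linarith
      have key : ∀ G : Finset 𝔅 → (ι → ℝ) → ℝ,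
          ∫ v, S.E1 A p G Ac (Function.update V (S.w b) v) ∂(unif S.c) =
          K * (S.κ * S.gg A b V) *
            ∫ v, G Ac (Function.update V (S.w b) (S.ze A b V + v)) ∂(SL.nuM (S.gg A b V) S.r) := by
        intro G
        have e1 : ∀ v, S.E1 A p G Ac (Function.update V (S.w b) v) =
            K * (2 * S.c * (S.κ * S.gg A b V) *
              SL.ff (S.gg A b V) S.r (v - S.ze A b V) *
              G Ac (Function.update V (S.w b) v)) := by
          intro v
          unfold E1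
          rw [S.Comp_update_w hbC, if_pos hA, S.wt_update_w hA hb, S.hh_update_w]
          ring
        simp_rw [e1]
        rw [integral_const_mul, integral_unif_ff S.c_pos (hS.g_pos b V hc) S.r_pos
          (hS.g_le b V hc) (hS.ze_mem b V hc) (S.κ * S.gg A b V)
          (fun v => G Ac (Function.update V (S.w b) v))]
        ring
      rw [key F, key F']
      refine mul_le_mul_of_nonneg_left (h1 V Ac hA hb) (mul_nonneg hK0 ?_)
      exact mul_nonneg S.κ_pos.le (hS.g_pos b V hc).le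
    · -- not complete
      have e1 : ∀ G : Finset 𝔅 → (ι → ℝ) → ℝ, ∀ v, S.E1 A p G Ac (Function.update V (S.w b) v) = 0 := by
        intro G v
        unfold E1
        rw [if_neg]
        intro h
        apply hA
        have hbU : b ∈ S.Comp V := by
          have := h hb
          rw [S.mem_Comp, S.comp_update_w, ← S.mem_Comp] at this
          exact this
        rwa [S.Comp_update_w hbU] at h
      simp only [e1, le_refl]
  · refine integral_mono (S.integrable_E1 hS hp hF Ac) (S.integrable_E1 hS hp hF' Ac) fun V => ?_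
    unfold E1
    by_cases hA : Ac ⊆ S.Comp V
    · rw [if_pos hA, if_pos hA]
      exact mul_le_mul_of_nonneg_left (h0 V Ac hA hb) (S.wt_nonneg hS hp hA)
    · rw [if_neg hA, if_neg hA]

/-! ### the error of one trade -/

variable {κ' : Type*} [Fintype κ']

/-- the spectral parameter of the block `b` -/
noncomputable def yb (A : Matrix ι ι ℝ) (m : ℕ) (a : ℝ) (b : 𝔅) (Ac : Finset 𝔅)
    (V : ι → ℝ) : ℂ :=
  yy A (S.uA A m a Ac V) (S.w b) (S.ze A b V) a

/-- the error of the trade of the block `b` -/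
noncomputable def err (A : Matrix ι ι ℝ) (ξ : κ' → ι → ℝ) (m : ℕ) (a : ℝ) (b : 𝔅)
    (Ac : Finset 𝔅) (V : ι → ℝ) : ℝ :=
  8 * XX A ξ (S.uA A m a Ac V) (S.w b) * ‖SL.Rt (S.gg A b V) S.r (-(S.yb A m a b Ac V))‖

theorem mnu_sub {g r : ℝ} (hg : 0 < g) (hr : 0 < r) (hgr : g ≤ r) {y : ℂ} (hy : 0 < y.im) :
    mnu (SL.nuM g r) y - mC g y = SL.Rt g r (-y) := by
  have hs : (-y).im < 0 := by simp; exact hy
  have h1 := SL.integral_ff_div hg hr hgr hs
  have h2 : mnu (SL.nuM g r) y = ∫ v : ℝ, (SL.ff g r v : ℂ) / ((v : ℂ) + -y) := by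
    unfold mnu
    rw [SL.integral_nuM hg hr]
    refine integral_congr_ae (Filter.Eventually.of_forall fun v => ?_)
    simp only [Complex.real_smul]
    rw [mul_one_div, sub_eq_add_neg]
  have h3 : mC g y = 1 / (-y - g * Complex.I) := by
    unfold mC
    have : -y - g * Complex.I = -(y + g * Complex.I) := by ring
    rw [this, div_neg, neg_div]
  rw [h2, h1, h3]
  ring

theorem uA_lossOff (hS : Good S A) {m : ℕ} {a : ℝ} (ha : 0 < a) (hA : Ac ⊆ S.Comp V) (s : ι) :
    LossOff (S.uA A m a Ac V) s := fun x _ => S.uA_loss hS ha hA x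

theorem yb_im_pos (hS : Good S A) {m : ℕ} {a : ℝ} (ha : 0 < a) (hA : Ac ⊆ S.Comp V) (b : 𝔅) :
    0 < (S.yb A m a b Ac V).im :=
  yy_im_pos hS.symm (S.uA_lossOff hS ha hA _) _ ha

/-- the potential of an active block at its centre -/
theorem uA_eq_update {m : ℕ} {a : ℝ} (hA : Ac ⊆ S.Comp V) (hb : b ∈ Ac) (hm : S.cls b = m) :
    Function.update (S.uA A m a Ac V) (S.w b) ((S.ze A b V : ℂ) - (S.gg A b V : ℂ) * Complex.I -
      (a : ℂ) * Complex.I) = S.uA A m a Ac V := by
  have h := S.uA_w (A := A) (m := m) (a := a) hA hb hm.le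
  have h2 : (S.ze A b V : ℂ) - (S.gg A b V : ℂ) * Complex.I - (a : ℂ) * Complex.I =
      S.uA A m a Ac V (S.w b) := by
    rw [h]; push_cast; ring
  rw [h2, Function.update_eq_self]

theorem share_eq_act (hS : Good S A) (ξ : κ' → ι → ℝ) {m : ℕ} {a : ℝ} (ha0 : 0 < a)
    (hA : Ac ⊆ S.Comp V) (hb : b ∈ Ac) (hm : S.cls b = m) :
    share A ξ (S.uA A m a Ac V) (S.w b) = 2 * (S.gg A b V + a) *
      (XX A ξ (S.uA A m a Ac V) (S.w b) / ‖S.yb A m a b Ac V + S.gg A b V * Complex.I‖ ^ 2) := by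
  have hg := hS.g_pos b V ((S.mem_Comp).mp (hA hb))
  have h := share_act hS.symm (S.uA_lossOff (m := m) hS ha0 hA (S.w b)) ξ (S.ze A b V) ha0 hg.le
  rw [S.uA_eq_update hA hb hm] at h
  exact h

theorem err_nonneg (hS : Good S A) (ξ : κ' → ι → ℝ) {m : ℕ} {a : ℝ} (ha : 0 < a) (hA : Ac ⊆ S.Comp V)
    (b : 𝔅) : 0 ≤ S.err A ξ m a b Ac V :=
  mul_nonneg (mul_nonneg (by norm_num) (XX_nonneg (S.uA_lossOff hS ha hA (S.w b)) ξ))
    (norm_nonneg _)

/-- the error is at most a constant times the share -/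
theorem err_le_share (hS : Good S A) (ξ : κ' → ι → ℝ) {m : ℕ} {a : ℝ} (ha0 : 0 < a)
    (hA : Ac ⊆ S.Comp V) (hb : b ∈ Ac) (hm : S.cls b = m) :
    S.err A ξ m a b Ac V ≤ 17600 * share A ξ (S.uA A m a Ac V) (S.w b) := by
  have hc := (S.mem_Comp).mp (hA hb)
  have hg := hS.g_pos b V hc
  have hgr := hS.g_le b V hc
  have hy := S.yb_im_pos (m := m) hS ha0 hA b
  have hX := XX_nonneg (A := A) (S.uA_lossOff (m := m) hS ha0 hA (S.w b)) ξ
  rw [S.share_eq_act hS ξ ha0 hA hb hm]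
  unfold err
  set y := S.yb A m a b Ac V with hyd
  set g := S.gg A b V with hgd
  have hs : (-y).im < 0 := by simp; exact hy
  have h1 := SL.Rt_le hg S.r_pos hgr hs
  have hn : 0 < ‖y + g * Complex.I‖ := by
    rw [norm_pos_iff]
    intro h0
    have := congrArg Complex.im h0
    simp at this
    linarith
  have h2 : ‖y + g * Complex.I‖ ≤ ‖-y‖ + S.r := by
    refine (norm_add_le _ _).trans ?_
    rw [norm_neg, norm_mul, Complex.norm_I, mul_one, Complex.norm_real, Real.norm_of_nonneg hg.le]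
    linarith
  have h3 : ‖SL.Rt g S.r (-y)‖ ≤ 4400 * g / ‖y + g * Complex.I‖ ^ 2 := by
    refine h1.trans ?_
    apply div_le_div_of_nonneg_left (by positivity) (by positivity)
    exact pow_le_pow_left₀ hn.le h2 2
  calc 8 * XX A ξ (S.uA A m a Ac V) (S.w b) * ‖SL.Rt g S.r (-y)‖
      ≤ 8 * XX A ξ (S.uA A m a Ac V) (S.w b) * (4400 * g / ‖y + g * Complex.I‖ ^ 2) := by gcongr
    _ = 17600 * (2 * g * (XX A ξ (S.uA A m a Ac V) (S.w b) / ‖y + g * Complex.I‖ ^ 2)) := by ring
    _ ≤ 17600 * (2 * (g + a) * (XX A ξ (S.uA A m a Ac V) (S.w b) / ‖y + g * Complex.I‖ ^ 2)) := by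
        gcongr
        linarith

theorem measurable_rr3 (b : ℝ) : Measurable fun q : (ℝ × ℂ) × ℝ => SL.rr q.1.1 b q.2 := by
  unfold SL.rr SL.R0 SL.cw SL.cd
  fun_prop

theorem measurable_Rt (r : ℝ) : Measurable fun q : ℝ × ℂ => SL.Rt q.1 r q.2 := by
  unfold SL.Rt
  have h : Measurable fun q : (ℝ × ℂ) × ℝ =>
      (SL.rr q.1.1 r q.2 : ℂ) / ((q.2 : ℂ) + q.1.2) :=
    (Complex.measurable_ofReal.comp (measurable_rr3 r)).div
      ((Complex.measurable_ofReal.comp measurable_snd).add (measurable_snd.comp measurable_fst))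
  exact (h.stronglyMeasurable.integral_prod_right').measurable

theorem measurable_yb (A : Matrix ι ι ℝ) (m : ℕ) (a : ℝ) (b : 𝔅) (Ac : Finset 𝔅) :
    Measurable (S.yb A m a b Ac) := by
  unfold yb yy
  exact ((measurable_zz A (fun x => S.measurable_uA A m a Ac x) (S.w b)).sub
    (Complex.measurable_ofReal.comp (S.measurable_ze A b))).add_const _

theorem measurable_err (A : Matrix ι ι ℝ) (ξ : κ' → ι → ℝ) (m : ℕ) (a : ℝ) (b : 𝔅) (Ac : Finset 𝔅) :
    Measurable (S.err A ξ m a b Ac) := by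
  unfold err
  refine Measurable.mul ?_ ?_
  · exact (measurable_XX A ξ (fun x => S.measurable_uA A m a Ac x) (S.w b)).const_mul _
  · have h := (measurable_Rt S.r).comp ((S.measurable_gg A b).prodMk (S.measurable_yb A m a b Ac).neg)
    exact h.norm

theorem bdd_err (hS : Good S A) (ξ : κ' → ι → ℝ) (m : ℕ) {a : ℝ} (ha0 : 0 < a) (b : 𝔅) :
    Bdd S fun Ac V => if b ∈ S.cm m Ac then S.err A ξ m a b Ac V else 0 := by
  obtain ⟨C, hC⟩ := (S.bdd_share hS ξ m ha0 (S.w b)).bdd
  refine ⟨fun Ac => ?_, 17600 * |C|, fun V Ac hA => ?_⟩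
  · by_cases h : b ∈ S.cm m Ac
    · simp only [if_pos h]; exact S.measurable_err A ξ m a b Ac
    · simp only [if_neg h]; exact measurable_const
  · by_cases h : b ∈ S.cm m Ac
    · simp only [if_pos h]
      rw [abs_of_nonneg (S.err_nonneg hS ξ ha0 hA b)]
      have h' := (S.mem_cm).mp h
      refine (S.err_le_share hS ξ ha0 hA h'.1 h'.2).trans ?_
      exact mul_le_mul_of_nonneg_left (((le_abs_self _).trans (hC V Ac hA)).trans (le_abs_self C))
        (by norm_num)
    · simp only [if_neg h, abs_zero]; positivity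

theorem err_update_w {ξ : κ' → ι → ℝ} {m : ℕ} {a : ℝ} (hA : Ac ⊆ S.Comp V) (hb : b ∈ Ac) (v : ℝ) :
    S.err A ξ m a b Ac (Function.update V (S.w b) v) = S.err A ξ m a b Ac V := by
  unfold err yb
  rw [S.uA_update_w hA hb, S.gg_update_w, S.ze_update_w]

/-- the cost of the trade of one block -/
theorem trade_one (hS : Good S A) (ξ : κ' → ι → ℝ) {m : ℕ} {a : ℝ} (ha0 : 0 < a)
    (hA : Ac ⊆ S.Comp V) (hb : b ∈ Ac) (hm : S.cls b = m) :
    ∫ v, DU A ξ (S.uA A m a (Ac.erase b) (Function.update V (S.w b) (S.ze A b V + v)))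
        ∂(SL.nuM (S.gg A b V) S.r) ≤
      DU A ξ (S.uA A m a Ac V) + S.err A ξ m a b Ac V := by
  have hc := (S.mem_Comp).mp (hA hb)
  have hg := hS.g_pos b V hc
  have hgr := hS.g_le b V hc
  have hprob := SL.isProbabilityMeasure_nuM hg S.r_pos hgr
  have hy := S.yb_im_pos (m := m) hS ha0 hA b
  have h := trade_le hS.symm (S.uA_lossOff (m := m) hS ha0 hA (S.w b)) ξ (S.ze A b V) ha0 hg.le
    (SL.nuM (S.gg A b V) S.r)
  rw [S.uA_eq_update hA hb hm] at h
  have e1 : ∀ v : ℝ, S.uA A m a (Ac.erase b) (Function.update V (S.w b) (S.ze A b V + v)) =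
      Function.update (S.uA A m a Ac V) (S.w b)
        ((S.ze A b V : ℂ) + (v : ℂ) - (a : ℂ) * Complex.I) := by
    intro v
    have hA' : Ac ⊆ S.Comp (Function.update V (S.w b) (S.ze A b V + v)) := by
      rw [S.Comp_update_w (hA hb)]; exact hA
    rw [S.uA_erase hA' hb, S.uA_update_w hA hb, Function.update_self]
    push_cast
    rfl
  have e2 : mnu (SL.nuM (S.gg A b V) S.r) (yy A (S.uA A m a Ac V) (S.w b) (S.ze A b V) a) -
      mC (S.gg A b V) (yy A (S.uA A m a Ac V) (S.w b) (S.ze A b V) a) =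
      SL.Rt (S.gg A b V) S.r (-(S.yb A m a b Ac V)) := mnu_sub hg S.r_pos hgr hy
  rw [e2] at h
  simp_rw [e1]
  exact h

/-- the cost of the trade of one block, in terms of the flags -/
theorem trade_cfl (hS : Good S A) (ξ : κ' → ι → ℝ) (m : ℕ) {a : ℝ} (ha0 : 0 < a) (b : 𝔅)
    (A' B : Finset 𝔅) (hb : b ∈ A') (hA' : A' ⊆ B) :
    S.cfl A m (fun Ac V => DU A ξ (S.uA A m a Ac V)) (A'.erase b) B -
      S.cfl A m (fun Ac V => DU A ξ (S.uA A m a Ac V)) A' B ≤
      S.cfl A m (fun Ac V => if b ∈ S.cm m Ac then S.err A ξ m a b Ac V else 0) A' B := by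
  by_cases hm : S.cls b = m
  · have b1 := S.bdd_cfl (S.bdd_DU hS ξ m ha0) m ((erase_subset b A').trans hA')
    have b2 := S.bdd_cfl (S.bdd_DU hS ξ m ha0) m hA'
    have b3 := S.bdd_cfl (S.bdd_err hS ξ m ha0 b) m hA'
    have key := S.Ex_le_of_w (A := A) (p := fun _ => 1) hS adm_one b1 (b2.add S b3) b ?_ ?_
    · rw [S.Ex_add hS adm_one b2 b3] at key
      have := key
      unfold cfl
      linarith
    · intro V Bf _ hbB
      have hne : S.cm m Bf ≠ B := by
        intro h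
        apply hbB
        have : b ∈ S.cm m Bf := by rw [h]; exact hA' hb
        exact ((S.mem_cm).mp this).1
      simp only [if_neg hne, add_zero, le_refl]
    · intro V Bf hBf hbB
      by_cases hcm : S.cm m Bf = B
      · simp only [if_pos hcm]
        have hAc : A' ∪ S.cg m Bf ⊆ S.Comp V :=
          union_subset (hA'.trans (by rw [← hcm]; exact (S.cm_sub m Bf).trans hBf))
            ((S.cg_sub m Bf).trans hBf)
        have hbA : b ∈ A' ∪ S.cg m Bf := mem_union_left _ hb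
        have hbg : b ∉ S.cg m Bf := by
          intro h
          have := ((S.mem_cg).mp h).2
          omega
        have he : A'.erase b ∪ S.cg m Bf = (A' ∪ S.cg m Bf).erase b := by
          ext x
          rw [mem_union, mem_erase, mem_erase, mem_union]
          constructor
          · rintro (h | h)
            · exact ⟨h.1, Or.inl h.2⟩
            · exact ⟨fun hx => hbg (hx ▸ h), Or.inr h⟩
          · rintro ⟨h1, h2 | h2⟩
            · exact Or.inl ⟨h1, h2⟩
            · exact Or.inr h2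
        have hc := (S.mem_Comp).mp (hAc hbA)
        have hprob := SL.isProbabilityMeasure_nuM (hS.g_pos b V hc) S.r_pos (hS.g_le b V hc)
        rw [he]
        have h1 := S.trade_one hS ξ ha0 hAc hbA hm
        refine h1.trans (le_of_eq ?_)
        have hbm : b ∈ S.cm m (A' ∪ S.cg m Bf) := (S.mem_cm).mpr ⟨hbA, hm⟩
        simp only [if_pos hbm]
        have e1 : ∀ v : ℝ, DU A ξ (S.uA A m a (A' ∪ S.cg m Bf)
            (Function.update V (S.w b) (S.ze A b V + v))) +
            S.err A ξ m a b (A' ∪ S.cg m Bf) (Function.update V (S.w b) (S.ze A b V + v)) =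
            DU A ξ (S.uA A m a (A' ∪ S.cg m Bf) V) + S.err A ξ m a b (A' ∪ S.cg m Bf) V := by
          intro v
          rw [S.uA_update_w hAc hbA, S.err_update_w hAc hbA]
        simp_rw [e1]
        rw [integral_const, probReal_univ, one_smul]
      · simp only [if_neg hcm, add_zero, le_refl]
  · -- no flagged set is equal to `B`
    have hz : ∀ (F : Finset 𝔅 → (ι → ℝ) → ℝ) (A1 : Finset 𝔅), S.cfl A m F A1 B = 0 := by
      intro F A1
      unfold cfl
      have : (fun (Bf : Finset 𝔅) (V : ι → ℝ) => if S.cm m Bf = B then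
          F (A1 ∪ S.cg m Bf) V else 0) = fun _ _ => (0 : ℝ) := by
        funext Bf V
        rw [if_neg]
        intro h
        apply hm
        have : b ∈ S.cm m Bf := by rw [h]; exact hA' hb
        exact ((S.mem_cm).mp this).2
      rw [this, S.Ex_const]
    rw [hz, hz, hz, sub_zero]

/-- STAGE THEOREM: elimination of one class -/
theorem stage (hS : Good S A) (ξ : κ' → ι → ℝ) (m : ℕ) {a : ℝ} (ha0 : 0 < a)
    (K e L p0 : ℝ) (hK : 0 < K) (he : 0 ≤ e) (hL : 0 ≤ L) (hp0 : 0 < p0) (hp1 : p0 ≤ 1)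
    (h1 : ∀ t, 0 < t → t ≤ 1 →
      S.Ex A (S.pim m t) (fun Ac V => ∑ b ∈ S.cm m Ac, S.err A ξ m a b Ac V) ≤
        e * (S.Dw A ξ m t a + K))
    (h2 : ∀ t, 0 < t → t ≤ 1 →
      S.Ex A (S.pim m t) (fun Ac V => ∑ b ∈ S.cm m Ac, S.err A ξ m a b Ac V) ≤
        t * L * (S.Dw A ξ m t a + K)) :
    S.Dw A ξ m 0 a + K ≤
      (S.Dw A ξ m 1 a + K) * Real.exp (e * Real.log (1 / p0) + L * p0) := by
  have hD : ∀ t, S.Dw A ξ m t a =
      TH.Dp (S.cfl A m (fun Ac V => DU A ξ (S.uA A m a Ac V))) t := fun t =>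
    S.Ex_thin hS m t (S.bdd_DU hS ξ m ha0)
  -- normalised
  set c : Finset 𝔅 → Finset 𝔅 → ℝ := fun A' B =>
    S.cfl A m (fun Ac V => DU A ξ (S.uA A m a Ac V)) A' B / K with hc
  set s : 𝔅 → Finset 𝔅 → Finset 𝔅 → ℝ := fun b A' B =>
    S.cfl A m (fun Ac V => if b ∈ S.cm m Ac then S.err A ξ m a b Ac V else 0) A' B / K with hs
  have hDc : ∀ t, TH.Dp c t = S.Dw A ξ m t a / K := by
    intro t
    rw [hD]
    unfold TH.Dp
    simp only [hc, mul_div_assoc', Finset.sum_div]
  have hSs : ∀ t, TH.Sp s t =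
      S.Ex A (S.pim m t) (fun Ac V => ∑ b ∈ S.cm m Ac, S.err A ξ m a b Ac V) / K := by
    intro t
    rw [S.Ex_thin_sum hS m t (S.bdd_err hS ξ m ha0)]
    unfold TH.Sp
    simp only [hs, Finset.sum_div]
    refine Finset.sum_congr rfl fun B _ => Finset.sum_congr rfl fun A' _ => ?_
    rw [← Finset.sum_div, mul_div_assoc']
  have key := TH.thin c s e L p0 ?_ ?_ he hL hp0 hp1 ?_ ?_
  · rw [hDc, hDc] at key
    have e1 : ∀ x : ℝ, x / K + 1 = (x + K) / K := fun x => by field_simp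
    rw [e1, e1, div_mul_eq_mul_div, div_le_div_iff_of_pos_right hK] at key
    exact key
  · intro t h0 h1'
    rw [hDc]
    exact div_nonneg (S.Dw_nonneg hS ξ m h0 h1' ha0) hK.le
  · intro b A' B hb hA'
    simp only [hc, hs]
    rw [← sub_div, div_le_div_iff_of_pos_right hK]
    exact S.trade_cfl hS ξ m ha0 b A' B hb hA'
  · intro t h0 h1'
    rw [hSs, hDc, div_le_iff₀ hK]
    refine (h1 t h0 h1').trans (le_of_eq ?_)
    field_simp
  · intro t h0 h1'
    rw [hSs, hDc, div_le_iff₀ hK]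
    refine (h2 t h0 h1').trans (le_of_eq ?_)
    field_simp

end Sys

end Pool.Agent.Lib.MP_562b47_mp.WO
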