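import Pool.Agent.Lib.MP_562b47_mp.WO.Trade

/-!
MP_562b47, worlds: integration over the potentials at the port sites of an active block, everything
else being frozen.
-/

open MeasureTheory Matrix Finset

set_option linter.unusedSectionVars false

namespace Pool.Agent.Lib.MP_562b47_mp.WO

open Pool.Agent.Lib.MP_562b47_mp.AL Pool.Agent.Lib.MP_562b47_mp

variable {ι 𝔅 : Type*} [Fintype ι] [DecidableEq ι] [Fintype 𝔅] [DecidableEq 𝔅]

theorem mix_mix (T : Finset ι) (U U' V : ι → ℝ) : mix T U (mix T U' V) = mix T U V := by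
  funext x
  by_cases h : x ∈ T
  · rw [mix_mem h, mix_mem h]
  · rw [mix_not h, mix_not h, mix_not h]

theorem mix_self (T : Finset ι) (V : ι → ℝ) : mix T V V = V := by
  funext x
  by_cases h : x ∈ T
  · rw [mix_mem h]
  · rw [mix_not h]

namespace Sys

variable (S : Sys ι 𝔅) {A : Matrix ι ι ℝ} {p : 𝔅 → ℝ} {V U : ι → ℝ} {Ac : Finset 𝔅} {b : 𝔅}

/-- the potential is in the windows at the port sites of `b` -/
def win (b : 𝔅) (U : ι → ℝ) : Prop := ∀ x ∈ S.L b, U x ∈ Set.Icc (S.lo b x) (S.hi b x)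

theorem ne_of_L {x : ι} (hx : x ∈ S.L b) : x ≠ S.w b := by
  rintro rfl
  exact S.w_not b hx

theorem comp_win {b : 𝔅} (h : S.comp b V) : S.win b V := fun x hx =>
  h x (S.L_sub b hx) (S.ne_of_L hx)

theorem comp_mix (h : S.comp b V) (hU : S.win b U) : S.comp b (mix (S.L b) U V) := by
  intro x hx hxw
  by_cases hL : x ∈ S.L b
  · rw [mix_mem hL]; exact hU x hL
  · rw [mix_not hL]; exact h x hx hxw

theorem Comp_mix (hb : b ∈ S.Comp V) (hU : S.win b U) :
    S.Comp (mix (S.L b) U V) = S.Comp V := by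
  refine S.Comp_eq hb ((S.mem_Comp).mpr (S.comp_mix ((S.mem_Comp).mp hb) hU)) fun x hx => ?_
  exact mix_not (fun h => hx (S.L_sub b h)) U V

theorem mix_off (U V : ι → ℝ) : ∀ x, x ∉ S.Q b → mix (S.L b) U V x = V x := fun _ hx =>
  mix_not (fun h => hx (S.L_sub b h)) U V

theorem mix_inn (U V : ι → ℝ) : ∀ x ∈ S.inn b, mix (S.L b) U V x = V x := fun _ hx =>
  mix_not ((S.mem_inn).mp hx).2.2 U V

theorem hh_mix (b : 𝔅) (U V : ι → ℝ) : S.hh A b (mix (S.L b) U V) = S.hh A b V :=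
  S.hh_congr A (S.mix_inn U V) (mix_not (S.w_not b) U V)

theorem ze_mix (b : 𝔅) (U V : ι → ℝ) : S.ze A b (mix (S.L b) U V) = S.ze A b V :=
  S.ze_congr A (S.mix_inn U V)

theorem gg_mix (b : 𝔅) (U V : ι → ℝ) : S.gg A b (mix (S.L b) U V) = S.gg A b V :=
  S.gg_congr A (S.mix_inn U V)

theorem ph_mix (b : 𝔅) (U V : ι → ℝ) (x : ι) : S.ph A b (mix (S.L b) U V) x = S.ph A b V x :=
  S.ph_congr A (S.mix_inn U V) x

theorem hh_mix' {b' : 𝔅} (hb : b ∈ S.Comp V) (hb' : b' ∈ S.Comp V) (U : ι → ℝ) :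
    S.hh A b' (mix (S.L b) U V) = S.hh A b' V := by
  by_cases h : b' = b
  · rw [h]; exact S.hh_mix b U V
  · exact S.hh_off A hb hb' h (S.mix_off U V)

theorem wt_mix (hA : Ac ⊆ S.Comp V) (hb : b ∈ S.Comp V) (hU : S.win b U) :
    S.wt A p (mix (S.L b) U V) Ac = S.wt A p V Ac := by
  unfold wt
  rw [S.Comp_mix hb hU]
  have e1 : ∏ b' ∈ Ac, p b' * S.hh A b' (mix (S.L b) U V) = ∏ b' ∈ Ac, p b' * S.hh A b' V :=
    Finset.prod_congr rfl fun b' hb' => by rw [S.hh_mix' hb (hA hb') U]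
  have e2 : ∏ b' ∈ S.Comp V \ Ac, (1 - p b' * S.hh A b' (mix (S.L b) U V)) =
      ∏ b' ∈ S.Comp V \ Ac, (1 - p b' * S.hh A b' V) :=
    Finset.prod_congr rfl fun b' hb' => by rw [S.hh_mix' hb (mem_sdiff.mp hb').1 U]
  rw [e1, e2]

/-- the potential of the world as a function of the potentials at the port sites of `b` -/
theorem uA_mix {m : ℕ} {a : ℝ} (hA : Ac ⊆ S.Comp V) (hb : b ∈ S.Comp V) (hU : S.win b U) :
    S.uA A m a Ac (mix (S.L b) U V) =
      fun x => if x ∈ S.L b then (U x : ℂ) - (a : ℂ) * Complex.I else S.uA A m a Ac V x := by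
  have hC := S.Comp_mix hb hU
  have hA' : Ac ⊆ S.Comp (mix (S.L b) U V) := by rw [hC]; exact hA
  have hbk : S.bk m a (mix (S.L b) U V) = S.bk m a V := S.bk_congr hC
  funext x
  by_cases hx : x ∈ S.L b
  · rw [if_pos hx, S.uA_off, hbk, S.bk_L hb hx, mix_mem hx]
    intro b' hb' hxb
    by_cases h : b' = b
    · rw [h] at hxb
      exact S.ne_of_L hx hxb
    · exact S.not_mem_of_ne hb (hA hb') h (S.w_mem b') (by rw [← hxb]; exact S.L_sub b hx)
  · rw [if_neg hx]
    by_cases h : ∃ b' ∈ Ac, x = S.w b'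
    · obtain ⟨b', hb', rfl⟩ := h
      rw [S.uA_w' hA hb', S.uA_w' hA' hb']
      by_cases hbb : b' = b
      · rw [hbb, S.ze_mix, S.gg_mix]
      · rw [S.ze_off A hb (hA hb') hbb (S.mix_off U V), S.gg_off A hb (hA hb') hbb (S.mix_off U V)]
    · push Not at h
      rw [S.uA_off h, S.uA_off h, hbk, mix_not hx]

open Classical in
/-- comparison of expectations, the potentials at the port sites of the active block `b` being
integrated first -/
theorem Ex_le_of_L (hS : Good S A) (hp : Adm p) {F F' : Finset 𝔅 → (ι → ℝ) → ℝ}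
    (hF : Bdd S F) (hF' : Bdd S F') (b : 𝔅)
    (h0 : ∀ V, ∀ Ac ⊆ S.Comp V, b ∉ Ac → F Ac V ≤ F' Ac V)
    (h1 : ∀ V, ∀ Ac ⊆ S.Comp V, b ∈ Ac →
      ∫ U, (if S.win b U then F Ac (mix (S.L b) U V) else 0) ∂(muc ι S.c) ≤
      ∫ U, (if S.win b U then F' Ac (mix (S.L b) U V) else 0) ∂(muc ι S.c)) :
    S.Ex A p F ≤ S.Ex A p F' := by
  rw [S.Ex_eq_sum hS hp hF, S.Ex_eq_sum hS hp hF']
  refine Finset.sum_le_sum fun Ac _ => ?_
  by_cases hb : b ∈ Ac
  · rw [mu_eq]
    refine integral_le_of_mix S.c_pos (S.L b) (S.integrable_E1 hS hp hF Ac)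
      (S.integrable_E1 hS hp hF' Ac) fun V => ?_
    -- a reference potential at the ports
    set V0 : ι → ℝ := mix (S.L b) (S.lo b) V with hV0
    have hlo : S.win b (S.lo b) := fun x _ => ⟨le_refl _, (S.lo_lt b x).le⟩
    have hmm : ∀ U, mix (S.L b) U V = mix (S.L b) U V0 := fun U => (mix_mix _ U _ V).symm
    by_cases hA : Ac ⊆ S.Comp V0
    · have hbC := hA hb
      have key : ∀ G : Finset 𝔅 → (ι → ℝ) → ℝ, ∀ U,
          S.E1 A p G Ac (mix (S.L b) U V) =
            S.wt A p V0 Ac * (if S.win b U then G Ac (mix (S.L b) U V0) else 0) := by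
        intro G U
        rw [hmm]
        unfold E1
        by_cases hU : S.win b U
        · rw [S.Comp_mix hbC hU, if_pos hA, if_pos hU, S.wt_mix hA hbC hU]
        · rw [if_neg hU, mul_zero, if_neg]
          intro h
          apply hU
          have h2 := S.comp_win ((S.mem_Comp).mp (h hb))
          intro x hx
          have := h2 x hx
          rwa [mix_mem hx] at this
      simp_rw [key F, key F']
      rw [integral_const_mul, integral_const_mul]
      exact mul_le_mul_of_nonneg_left (h1 V0 Ac hA hb) (S.wt_nonneg hS hp hA)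
    · have e1 : ∀ G : Finset 𝔅 → (ι → ℝ) → ℝ, ∀ U, S.E1 A p G Ac (mix (S.L b) U V) = 0 := by
        intro G U
        unfold E1
        rw [if_neg]
        intro h
        apply hA
        have hbU := h hb
        have h3 : mix (S.L b) (S.lo b) (mix (S.L b) U V) = V0 := mix_mix _ _ _ _
        rw [← h3, S.Comp_mix hbU hlo]
        exact h
      simp only [e1, le_refl]
  · refine integral_mono (S.integrable_E1 hS hp hF Ac) (S.integrable_E1 hS hp hF' Ac) fun V => ?_
    unfold E1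
    by_cases hA : Ac ⊆ S.Comp V
    · rw [if_pos hA, if_pos hA]
      exact mul_le_mul_of_nonneg_left (h0 V Ac hA hb) (S.wt_nonneg hS hp hA)
    · rw [if_neg hA, if_neg hA]

end Sys

end Pool.Agent.Lib.MP_562b47_mp.WO
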